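import Mathlib
import Pool.Agent.W301.SS.Core

/-! Sums of Fejér kernels as minorants of the reciprocal of the distance to the nearest integer, and
a lower bound for sums over primes of products of such sums. -/

set_option autoImplicit false

namespace Pool.Agent.V7H17.LP
open Finset
open Pool.Agent.H807R2.Dav
open Pool.Agent.W301.SS

/-- distance to the nearest integer -/
noncomputable def nn (x : ℝ) : ℝ := |x - round x|

lemma nn_nonneg (x : ℝ) : 0 ≤ nn x := abs_nonneg _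

lemma nn_le_dd (x : ℝ) : 4 * nn x ≤ dd x := by
  have h1 : dd x = dd (x - round x) := by
    have := dd_add_int (x - round x) (round x)
    rw [← this]
    congr 1
    ring
  rw [h1, dd_eq_sin]
  unfold nn
  have h2 : |x - round x| ≤ 1 / 2 := abs_sub_round x
  have h3 : |Real.pi * (x - round x)| ≤ Real.pi / 2 := by
    rw [abs_mul, abs_of_pos Real.pi_pos]
    nlinarith [Real.pi_pos]
  have h4 := Real.mul_abs_le_abs_sin h3
  rw [abs_mul, abs_of_pos Real.pi_pos] at h4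
  have h5 : 2 / Real.pi * (Real.pi * |x - round x|) = 2 * |x - round x| := by
    field_simp
  rw [h5] at h4
  linarith

/-- the Fejér kernel -/
noncomputable def Fk (N : ℕ) (x : ℝ) : ℝ := ‖∑ n ∈ range N, ee ((n : ℝ) * x)‖ ^ 2 / N

lemma Fk_nonneg (N : ℕ) (x : ℝ) : 0 ≤ Fk N x := by unfold Fk; positivity

lemma Fk_le (N : ℕ) (x : ℝ) : Fk N x ≤ N := by
  unfold Fk
  rcases Nat.eq_zero_or_pos N with h | h
  · subst h; simp
  have hN : (0 : ℝ) < N := by exact_mod_cast h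
  rw [div_le_iff₀ hN]
  have h1 : ‖∑ n ∈ range N, ee ((n : ℝ) * x)‖ ≤ N := by
    refine (norm_sum_le _ _).trans ?_
    simp [norm_ee]
  nlinarith [norm_nonneg (∑ n ∈ range N, ee ((n : ℝ) * x))]

/-- sum of Fejér kernels -/
noncomputable def GJ (J : ℕ) (x : ℝ) : ℝ := ∑ j ∈ range J, Fk (2 ^ j) x

lemma GJ_nonneg (J : ℕ) (x : ℝ) : 0 ≤ GJ J x := sum_nonneg fun _ _ => Fk_nonneg _ _

lemma sum_pow2 (J : ℕ) : ∑ j ∈ range J, (2 : ℝ) ^ j = 2 ^ J - 1 := by
  have := geom_sum_eq (x := (2 : ℝ)) (by norm_num) J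
  rw [this]; norm_num

lemma GJ_le_pow (J : ℕ) (x : ℝ) : GJ J x ≤ 2 ^ J := by
  unfold GJ
  calc ∑ j ∈ range J, Fk (2 ^ j) x ≤ ∑ j ∈ range J, (2 : ℝ) ^ j := by
        apply sum_le_sum
        intro j _
        have := Fk_le (2 ^ j) x
        push_cast at this
        exact this
    _ ≤ 2 ^ J := by rw [sum_pow2]; linarith

lemma Fk_far (j : ℕ) (x : ℝ) : dd x * Fk (2 ^ j) x ≤
    18 * (1 / (1 + 2 ^ j * dd x) - 1 / (1 + 2 ^ (j + 1) * dd x)) := by
  have hd := dd_nonneg x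
  set d := dd x with hdd
  have hN : (0 : ℝ) < 2 ^ j := by positivity
  have h1 : ‖∑ n ∈ range (2 ^ j), ee ((n : ℝ) * x)‖ ≤ 3 * (2 : ℝ) ^ j / (1 + 2 ^ j * d) := by
    have := geo_bound 0 (2 ^ j) (Nat.zero_le _) (M := (2 : ℝ) ^ j) (by push_cast; linarith) x
    unfold KK at this
    rw [← hdd] at this
    simpa using this
  have hpos : 0 < 1 + 2 ^ j * d := by positivity
  have hpos2 : 0 < 1 + 2 ^ (j + 1) * d := by positivity
  have h2 : Fk (2 ^ j) x ≤ 9 * 2 ^ j / (1 + 2 ^ j * d) ^ 2 := by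
    unfold Fk
    push_cast
    rw [div_le_div_iff₀ hN (by positivity)]
    have h3 : ‖∑ n ∈ range (2 ^ j), ee ((n : ℝ) * x)‖ * (1 + 2 ^ j * d) ≤ 3 * 2 ^ j := by
      rwa [le_div_iff₀ hpos] at h1
    have h4 : 0 ≤ ‖∑ n ∈ range (2 ^ j), ee ((n : ℝ) * x)‖ * (1 + 2 ^ j * d) := by positivity
    calc ‖∑ n ∈ range (2 ^ j), ee ((n : ℝ) * x)‖ ^ 2 * (1 + 2 ^ j * d) ^ 2 =
        (‖∑ n ∈ range (2 ^ j), ee ((n : ℝ) * x)‖ * (1 + 2 ^ j * d)) ^ 2 := by ring
      _ ≤ (3 * 2 ^ j) ^ 2 := by gcongr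
      _ = 9 * 2 ^ j * 2 ^ j := by ring
  calc d * Fk (2 ^ j) x ≤ d * (9 * 2 ^ j / (1 + 2 ^ j * d) ^ 2) := by gcongr
    _ ≤ _ := by
      rw [div_sub_div _ _ hpos.ne' hpos2.ne', mul_div_assoc', mul_div_assoc', div_le_div_iff₀ (by positivity) (by positivity)]
      have e : (1 * (1 + 2 ^ (j + 1) * d) - (1 + 2 ^ j * d) * 1) = 2 ^ j * d := by ring
      rw [e, pow_succ (2 : ℝ) j]
      have h5 : 0 ≤ (2 : ℝ) ^ j * d := by positivity
      have h6 : (1 + (2 ^ j * 2) * d) ≤ 2 * (1 + 2 ^ j * d) := by nlinarith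
      have h7 : (1 + 2 ^ j * d) * (1 + (2 ^ j * 2) * d) ≤ 2 * (1 + 2 ^ j * d) ^ 2 := by nlinarith
      calc d * (9 * 2 ^ j) * ((1 + 2 ^ j * d) * (1 + 2 ^ j * 2 * d)) ≤
          d * (9 * 2 ^ j) * (2 * (1 + 2 ^ j * d) ^ 2) := by gcongr
        _ = 18 * (2 ^ j * d) * (1 + 2 ^ j * d) ^ 2 := by ring

lemma GJ_far (J : ℕ) (x : ℝ) : nn x * GJ J x ≤ 5 := by
  have hd := dd_nonneg x
  have h1 : dd x * GJ J x ≤ 18 := by
    unfold GJ
    rw [mul_sum]
    calc ∑ j ∈ range J, dd x * Fk (2 ^ j) x ≤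
          ∑ j ∈ range J, 18 * (1 / (1 + 2 ^ j * dd x) - 1 / (1 + 2 ^ (j + 1) * dd x)) :=
          sum_le_sum fun j _ => Fk_far j x
      _ = 18 * (1 / (1 + 2 ^ 0 * dd x) - 1 / (1 + 2 ^ J * dd x)) := by
          rw [← mul_sum, sum_range_sub' (fun j => 1 / (1 + (2 : ℝ) ^ j * dd x))]
      _ ≤ 18 := by
          have a1 : 1 / (1 + 2 ^ 0 * dd x) ≤ 1 := by
            rw [div_le_one (by positivity)]; linarith
          have a2 : 0 ≤ 1 / (1 + 2 ^ J * dd x) := by positivity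
          linarith
  have h2 := nn_le_dd x
  have h3 := GJ_nonneg J x
  nlinarith

/-- index set of the Fourier expansion of `GJ` -/
def TJ (J : ℕ) : Finset (Σ _ : ℕ, ℕ × ℕ) := (range J).sigma fun j => range (2 ^ j) ×ˢ range (2 ^ j)

/-- weight -/
noncomputable def wt (t : Σ _ : ℕ, ℕ × ℕ) : ℝ := 1 / 2 ^ t.1

/-- frequency -/
def fr (t : Σ _ : ℕ, ℕ × ℕ) : ℤ := (t.2.1 : ℤ) - t.2.2

lemma wt_pos (t : Σ _ : ℕ, ℕ × ℕ) : 0 < wt t := by unfold wt; positivity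

lemma star_ee (x : ℝ) : (starRingEnd ℂ) (ee x) = ee (-x) := Pool.Agent.W301.SS.star_ee x

lemma Fk_eq (N : ℕ) (x : ℝ) : ((Fk N x : ℝ) : ℂ) =
    ∑ p ∈ range N ×ˢ range N, (1 / (N : ℂ)) * ee (((p.1 : ℤ) - (p.2 : ℤ) : ℤ) * x) := by
  unfold Fk
  push_cast
  rw [← Complex.mul_conj', map_sum, sum_mul_sum, sum_product, sum_div]
  apply sum_congr rfl
  intro i _
  rw [sum_div]
  apply sum_congr rfl
  intro j _
  rw [star_ee, ← ee_add]
  have : (i : ℝ) * x + -((j : ℝ) * x) = ((i : ℝ) - (j : ℝ)) * x := by ring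
  rw [this]
  ring

lemma GJ_eq (J : ℕ) (x : ℝ) : ((GJ J x : ℝ) : ℂ) = ∑ t ∈ TJ J, ((wt t : ℝ) : ℂ) * ee ((fr t : ℝ) * x) := by
  unfold GJ TJ
  rw [sum_sigma]
  push_cast
  apply sum_congr rfl
  intro j _
  rw [Fk_eq]
  apply sum_congr rfl
  intro p _
  unfold wt fr
  push_cast
  rfl

lemma sum_wt (J : ℕ) : ∑ t ∈ TJ J, wt t ≤ 2 ^ J := by
  unfold TJ
  rw [sum_sigma]
  calc ∑ j ∈ range J, ∑ s ∈ range (2 ^ j) ×ˢ range (2 ^ j), wt ⟨j, s⟩ = ∑ j ∈ range J, (2 : ℝ) ^ j := by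
        apply sum_congr rfl
        intro j _
        unfold wt
        simp only [sum_const, card_product, card_range, nsmul_eq_mul]
        push_cast
        field_simp
    _ ≤ 2 ^ J := by rw [sum_pow2]; linarith

lemma sum_wt_zero (J : ℕ) : ∑ t ∈ (TJ J).filter (fun t => fr t = 0), wt t = J := by
  unfold TJ
  rw [sum_filter, sum_sigma]
  calc ∑ j ∈ range J, ∑ s ∈ range (2 ^ j) ×ˢ range (2 ^ j), (if fr ⟨j, s⟩ = 0 then wt ⟨j, s⟩ else 0) =
      ∑ j ∈ range J, (1 : ℝ) := by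
        apply sum_congr rfl
        intro j _
        rw [sum_product]
        have : ∀ a ∈ range (2 ^ j), ∑ b ∈ range (2 ^ j), (if fr ⟨j, (a, b)⟩ = 0 then wt ⟨j, (a, b)⟩ else 0) = 1 / 2 ^ j := by
          intro a ha
          unfold wt fr
          rw [sum_eq_single a]
          · simp
          · intro b _ hb
            rw [if_neg]
            simp only
            omega
          · intro h; exact absurd ha h
        rw [sum_congr rfl this]
        simp only [sum_const, card_range, nsmul_eq_mul]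
        push_cast
        field_simp
    _ = J := by simp

lemma abs_fr_lt {J : ℕ} {t : Σ _ : ℕ, ℕ × ℕ} (ht : t ∈ TJ J) : |fr t| < 2 ^ J := by
  unfold TJ at ht
  simp only [mem_sigma, mem_range, mem_product] at ht
  obtain ⟨h1, h2, h3⟩ := ht
  have h4 : 2 ^ t.1 ≤ 2 ^ J := Nat.pow_le_pow_right (by norm_num) h1.le
  have h5 : ((2 ^ t.1 : ℕ) : ℤ) ≤ ((2 ^ J : ℕ) : ℤ) := by exact_mod_cast h4
  push_cast at h5
  have h6 : ((t.2.1 : ℕ) : ℤ) < ((2 ^ t.1 : ℕ) : ℤ) := by exact_mod_cast h2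
  have h7 : ((t.2.2 : ℕ) : ℤ) < ((2 ^ t.1 : ℕ) : ℤ) := by exact_mod_cast h3
  push_cast at h6 h7
  unfold fr
  rw [abs_lt]
  constructor <;> omega

variable {ι : Type*} [Fintype ι] [DecidableEq ι]

/-- product of the weights -/
noncomputable def Wt (u : ι → Σ _ : ℕ, ℕ × ℕ) : ℝ := ∏ i, wt (u i)

lemma Wt_pos (u : ι → Σ _ : ℕ, ℕ × ℕ) : 0 < Wt u := prod_pos fun _ _ => wt_pos _

lemma ee_sum {κ : Type*} (s : Finset κ) (f : κ → ℝ) : ee (∑ i ∈ s, f i) = ∏ i ∈ s, ee (f i) := by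
  classical
  induction s using Finset.induction_on with
  | empty => simp [ee_zero]
  | insert a s ha ih => rw [sum_insert ha, prod_insert ha, ee_add, ih]

lemma prod_GJ (J : ℕ) (x : ι → ℝ) : ((∏ i, GJ J (x i) : ℝ) : ℂ) =
    ∑ u ∈ Fintype.piFinset (fun _ : ι => TJ J), ((Wt u : ℝ) : ℂ) * ee (∑ i, (fr (u i) : ℝ) * x i) := by
  push_cast
  simp_rw [GJ_eq]
  rw [prod_univ_sum]
  apply sum_congr rfl
  intro u _
  rw [prod_mul_distrib, ee_sum]
  unfold Wt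
  push_cast
  rfl

lemma sum_Wt (J : ℕ) : ∑ u ∈ Fintype.piFinset (fun _ : ι => TJ J), Wt u ≤ (2 ^ J) ^ Fintype.card ι := by
  unfold Wt
  rw [← prod_univ_sum]
  rw [← card_univ, ← prod_const]
  exact prod_le_prod (fun i _ => sum_nonneg fun t _ => (wt_pos t).le) fun i _ => sum_wt J

lemma sum_Wt_zero (J : ℕ) : ∑ u ∈ (Fintype.piFinset (fun _ : ι => TJ J)).filter (fun u => ∀ i, fr (u i) = 0), Wt u =
    (J : ℝ) ^ Fintype.card ι := by
  have h : (Fintype.piFinset (fun _ : ι => TJ J)).filter (fun u => ∀ i, fr (u i) = 0) =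
      Fintype.piFinset (fun _ : ι => (TJ J).filter (fun t => fr t = 0)) := by
    ext u
    simp only [mem_filter, Fintype.mem_piFinset]
    constructor
    · rintro ⟨h1, h2⟩ i; exact ⟨h1 i, h2 i⟩
    · intro h; exact ⟨fun i => (h i).1, fun i => (h i).2⟩
  rw [h]
  unfold Wt
  rw [← prod_univ_sum, prod_congr rfl (fun i _ => sum_wt_zero J), prod_const, card_univ]

/-- exponential sum with weights over `(M, N]` -/
noncomputable def SW (w : ℕ → ℝ) (M N : ℕ) (ξ : ℝ) : ℂ := ∑ n ∈ Ioc M N, ((w n : ℝ) : ℂ) * ee ((n : ℝ) * ξ)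

lemma SW_zero (w : ℕ → ℝ) (M N : ℕ) : SW w M N 0 = ((∑ n ∈ Ioc M N, w n : ℝ) : ℂ) := by
  unfold SW
  push_cast
  apply sum_congr rfl
  intro i _
  rw [mul_zero, ee_zero, mul_one]

lemma SW_om {M N : ℕ} (h : M ≤ N) (ξ : ℝ) : SW om M N ξ = SP N ξ - SP M ξ := by
  unfold SW SP
  rw [eq_sub_iff_add_eq, add_comm, ← sum_union]
  · apply sum_congr _ fun _ _ => rfl
    ext i; simp only [mem_union, mem_Icc, mem_Ioc]; omega
  · rw [disjoint_left]; intro i; simp only [mem_Icc, mem_Ioc]; omega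

/-- **Lower bound.** -/
theorem block_lower (w : ℕ → ℝ) (J M N : ℕ) (α δ : ι → ℝ) (E : ℝ)
    (hE : ∀ h : ι → ℤ, h ≠ 0 → (∀ i, |h i| < 2 ^ J) → ‖SW w M N (∑ i, (h i : ℝ) * α i)‖ ≤ E) (hE0 : 0 ≤ E) :
    (J : ℝ) ^ Fintype.card ι * (∑ n ∈ Ioc M N, w n) - (2 ^ J) ^ Fintype.card ι * E ≤
    ∑ n ∈ Ioc M N, w n * ∏ i, GJ J ((n : ℝ) * α i - δ i) := by
  classical
  set U := Fintype.piFinset (fun _ : ι => TJ J) with hU
  have h1 : ((∑ n ∈ Ioc M N, w n * ∏ i, GJ J ((n : ℝ) * α i - δ i) : ℝ) : ℂ) =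
      ∑ u ∈ U, ((Wt u : ℝ) : ℂ) * (ee (- ∑ i, (fr (u i) : ℝ) * δ i) * SW w M N (∑ i, (fr (u i) : ℝ) * α i)) := by
    rw [Complex.ofReal_sum]
    have h2 : ∀ n ∈ Ioc M N, ((w n * ∏ i, GJ J ((n : ℝ) * α i - δ i) : ℝ) : ℂ) =
        ∑ u ∈ U, ((Wt u : ℝ) : ℂ) * (ee (- ∑ i, (fr (u i) : ℝ) * δ i) *
          (((w n : ℝ) : ℂ) * ee ((n : ℝ) * ∑ i, (fr (u i) : ℝ) * α i))) := by
      intro n _
      rw [Complex.ofReal_mul, prod_GJ, mul_sum]
      apply sum_congr rfl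
      intro u _
      have h3 : ∑ i, (fr (u i) : ℝ) * ((n : ℝ) * α i - δ i) =
          (- ∑ i, (fr (u i) : ℝ) * δ i) + (n : ℝ) * ∑ i, (fr (u i) : ℝ) * α i := by
        rw [mul_sum, ← sum_neg_distrib, ← sum_add_distrib]
        apply sum_congr rfl
        intro i _
        ring
      rw [h3, ee_add]
      ring
    rw [sum_congr rfl h2, sum_comm]
    apply sum_congr rfl
    intro u _
    unfold SW
    rw [mul_sum, mul_sum]
  have h4 : (∑ n ∈ Ioc M N, w n * ∏ i, GJ J ((n : ℝ) * α i - δ i)) =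
      ∑ u ∈ U, (((Wt u : ℝ) : ℂ) * (ee (- ∑ i, (fr (u i) : ℝ) * δ i) *
        SW w M N (∑ i, (fr (u i) : ℝ) * α i))).re := by
    rw [← Complex.re_sum, ← h1, Complex.ofReal_re]
  rw [h4, ← sum_filter_add_sum_filter_not U (fun u => ∀ i, fr (u i) = 0)]
  have h5 : ∑ u ∈ U.filter (fun u => ∀ i, fr (u i) = 0), (((Wt u : ℝ) : ℂ) *
      (ee (- ∑ i, (fr (u i) : ℝ) * δ i) * SW w M N (∑ i, (fr (u i) : ℝ) * α i))).re =
      (J : ℝ) ^ Fintype.card ι * (∑ n ∈ Ioc M N, w n) := by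
    rw [← sum_Wt_zero (ι := ι) J, sum_mul]
    apply sum_congr rfl
    intro u hu
    rw [mem_filter] at hu
    have h6 : ∑ i, (fr (u i) : ℝ) * δ i = 0 := sum_eq_zero fun i _ => by rw [hu.2 i]; simp
    have h7 : ∑ i, (fr (u i) : ℝ) * α i = 0 := sum_eq_zero fun i _ => by rw [hu.2 i]; simp
    rw [h6, h7, neg_zero, ee_zero, one_mul, SW_zero, ← Complex.ofReal_mul, Complex.ofReal_re]
  rw [h5]
  have h8 : -((2 ^ J) ^ Fintype.card ι * E) ≤ ∑ u ∈ U.filter (fun u => ¬ ∀ i, fr (u i) = 0), (((Wt u : ℝ) : ℂ) *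
      (ee (- ∑ i, (fr (u i) : ℝ) * δ i) * SW w M N (∑ i, (fr (u i) : ℝ) * α i))).re := by
    calc -((2 ^ J) ^ Fintype.card ι * E) ≤ -(∑ u ∈ U.filter (fun u => ¬ ∀ i, fr (u i) = 0), Wt u * E) := by
          rw [neg_le_neg_iff, ← sum_mul]
          apply mul_le_mul_of_nonneg_right _ hE0
          refine le_trans ?_ (sum_Wt (ι := ι) J)
          exact sum_le_sum_of_subset_of_nonneg (filter_subset _ _) fun u _ _ => (Wt_pos u).le
      _ = ∑ u ∈ U.filter (fun u => ¬ ∀ i, fr (u i) = 0), -(Wt u * E) := by rw [sum_neg_distrib]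
      _ ≤ _ := by
          apply sum_le_sum
          intro u hu
          rw [mem_filter] at hu
          have h9 : ‖((Wt u : ℝ) : ℂ) * (ee (- ∑ i, (fr (u i) : ℝ) * δ i) *
              SW w M N (∑ i, (fr (u i) : ℝ) * α i))‖ ≤ Wt u * E := by
            rw [norm_mul, norm_mul, norm_ee, one_mul, Complex.norm_real, Real.norm_eq_abs, abs_of_pos (Wt_pos u)]
            apply mul_le_mul_of_nonneg_left _ (Wt_pos u).le
            apply hE (fun i => fr (u i))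
            · intro h0
              apply hu.2
              intro i
              exact congrFun h0 i
            · intro i
              have hui : u i ∈ TJ J := by
                have := hu.1
                rw [hU, Fintype.mem_piFinset] at this
                exact this i
              exact abs_fr_lt hui
          have h10 := (Complex.abs_re_le_norm (((Wt u : ℝ) : ℂ) * (ee (- ∑ i, (fr (u i) : ℝ) * δ i) *
              SW w M N (∑ i, (fr (u i) : ℝ) * α i)))).trans h9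
          exact (abs_le.1 h10).1
  linarith

/-! ### Residue classes -/

/-- `log p` at the primes `p ≡ a` modulo `l` -/
noncomputable def omA (l a n : ℕ) : ℝ := if n ≡ a [MOD l] then om n else 0

lemma omA_nonneg (l a n : ℕ) : 0 ≤ omA l a n := by
  unfold omA; split_ifs
  · exact om_nonneg n
  · exact le_rfl

lemma SW_omA {l : ℕ} (hl : 1 ≤ l) (a M N : ℕ) (ξ : ℝ) : SW (omA l a) M N ξ =
    (1 / (l : ℂ)) * ∑ b ∈ range l, ee (-(((a : ℤ) : ℝ) * (b / l))) * SW om M N (ξ + b / l) := by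
  unfold SW
  simp_rw [mul_sum]
  rw [sum_comm]
  apply sum_congr rfl
  intro n _
  have hl0 : (l : ℂ) ≠ 0 := by exact_mod_cast (by omega : l ≠ 0)
  have h1 : ∑ b ∈ range l, ee ((((n : ℤ) - (a : ℤ) : ℤ) : ℝ) * ((b : ℝ) / l)) = if (l : ℤ) ∣ (n : ℤ) - a then (l : ℂ) else 0 := by
    have := orth hl ((n : ℤ) - (a : ℤ))
    exact this
  have h2 : ((l : ℤ) ∣ (n : ℤ) - a) ↔ n ≡ a [MOD l] := by
    rw [Nat.ModEq.comm, Nat.modEq_iff_dvd]
  calc ((omA l a n : ℝ) : ℂ) * ee ((n : ℝ) * ξ) =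
        (1 / (l : ℂ)) * (∑ b ∈ range l, ee ((((n : ℤ) - (a : ℤ) : ℤ) : ℝ) * ((b : ℝ) / l))) * (((om n : ℝ) : ℂ) * ee ((n : ℝ) * ξ)) := by
        rw [h1]
        unfold omA
        by_cases h : n ≡ a [MOD l]
        · rw [if_pos h, if_pos (h2.2 h)]
          field_simp
        · rw [if_neg h, if_neg (fun h3 => h (h2.1 h3))]
          simp
    _ = _ := by
        rw [mul_sum, sum_mul]
        apply sum_congr rfl
        intro b _
        have e : ee ((((n : ℤ) - (a : ℤ) : ℤ) : ℝ) * ((b : ℝ) / l)) * ee ((n : ℝ) * ξ) =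
            ee (-(((a : ℤ) : ℝ) * (b / l))) * ee ((n : ℝ) * (ξ + b / l)) := by
          rw [← ee_add, ← ee_add]
          congr 1
          push_cast
          ring
        linear_combination (1 / (l : ℂ)) * ((om n : ℝ) : ℂ) * e

lemma norm_SW_omA_le {l : ℕ} (hl : 1 ≤ l) (a M N : ℕ) (ξ E : ℝ)
    (hE : ∀ b < l, ‖SW om M N (ξ + b / l)‖ ≤ E) : ‖SW (omA l a) M N ξ‖ ≤ E := by
  rw [SW_omA hl, norm_mul]
  have hl0 : (0 : ℝ) < l := by exact_mod_cast hl
  have h1 : ‖(1 / (l : ℂ))‖ = 1 / l := by simp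
  rw [h1]
  have h2 : ‖∑ b ∈ range l, ee (-(((a : ℤ) : ℝ) * (b / l))) * SW om M N (ξ + b / l)‖ ≤ l * E := by
    refine (norm_sum_le _ _).trans ?_
    calc ∑ b ∈ range l, ‖ee (-(((a : ℤ) : ℝ) * (b / l))) * SW om M N (ξ + b / l)‖ ≤ ∑ _b ∈ range l, E := by
          apply sum_le_sum
          intro b hb
          rw [norm_mul, norm_ee, one_mul]
          exact hE b (mem_range.1 hb)
      _ = l * E := by rw [sum_const, card_range, nsmul_eq_mul]
  calc 1 / (l : ℝ) * ‖∑ b ∈ range l, ee (-(((a : ℤ) : ℝ) * (b / l))) * SW om M N (ξ + b / l)‖ ≤ 1 / (l : ℝ) * (l * E) := by gcongr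
    _ = E := by field_simp

end Pool.Agent.V7H17.LP
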