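import Mathlib
import Pool.Agent.Cov.PNT
import Pool.Agent.V7H17.LP.Fejer

/-! The lower bound for one block `(4^m, 4^(m+1)]` of primes. -/

set_option autoImplicit false

namespace Pool.Agent.V7H17.LP
open Finset Filter
open Pool.Agent.H807R2.Dav
open Pool.Agent.W301.SS

lemma psi_diff (l a N : ℕ) (hN : 1 ≤ N) :
    (∑ k ∈ Icc 1 N, ArithmeticFunction.vonMangoldt.residueClass (a : ZMod l) k) - 2 * √(N : ℝ) * Real.log N ≤
      ∑ k ∈ Icc 1 N, omA l a k ∧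
    ∑ k ∈ Icc 1 N, omA l a k ≤ ∑ k ∈ Icc 1 N, ArithmeticFunction.vonMangoldt.residueClass (a : ZMod l) k := by
  have hres : ∀ k : ℕ, ArithmeticFunction.vonMangoldt.residueClass (a : ZMod l) k =
      if k ≡ a [MOD l] then ArithmeticFunction.vonMangoldt k else 0 := by
    intro k
    unfold ArithmeticFunction.vonMangoldt.residueClass
    rw [Set.indicator_apply]
    simp only [Set.mem_ofPred_eq, ZMod.natCast_eq_natCast_iff]
  constructor
  · have h1 := Chebyshev.psi_sub_theta_le (x := (N : ℝ)) (by exact_mod_cast hN)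
    rw [← sum_Lam, ← sum_om, ← sum_sub_distrib] at h1
    have h2 : ∑ k ∈ Icc 1 N, (ArithmeticFunction.vonMangoldt.residueClass (a : ZMod l) k - omA l a k) ≤
        ∑ k ∈ Icc 1 N, (ArithmeticFunction.vonMangoldt k - om k) := by
      apply sum_le_sum
      intro k _
      rw [hres]
      unfold omA
      have := om_le k
      split_ifs <;> linarith
    rw [sum_sub_distrib] at h2
    linarith
  · apply sum_le_sum
    intro k _
    rw [hres]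
    unfold omA
    have := om_le k
    split_ifs <;> linarith

lemma theta_block {l : ℕ} (hl : 1 ≤ l) {a : ℕ} (ha : a.Coprime l) : ∀ᶠ m : ℕ in atTop, 1 / (l.totient : ℝ) * (4 : ℝ) ^ m ≤
    ∑ n ∈ Ioc (4 ^ m) (4 ^ (m + 1)), omA l a n := by
  have : NeZero l := ⟨by omega⟩
  have hφ : (0 : ℝ) < l.totient := by exact_mod_cast Nat.totient_pos.2 hl
  set c : ℝ := (l.totient : ℝ)⁻¹ with hc
  have hc0 : 0 < c := inv_pos.2 hφ
  have hunit : IsUnit (a : ZMod l) := (ZMod.isUnit_iff_coprime a l).2 ha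
  have hpnt := Pool.Agent.Cov.PNT.pnt_residueClass hunit
  rw [← hc] at hpnt
  have ht : Tendsto (fun m : ℕ => ((4 : ℝ) ^ m)) atTop atTop := tendsto_pow_atTop_atTop_of_one_lt (by norm_num)
  have h1 : Tendsto (fun m : ℕ => (∑ k ∈ Icc 1 (4 ^ m), ArithmeticFunction.vonMangoldt.residueClass (a : ZMod l) k) / (4 : ℝ) ^ m) atTop (nhds c) := by
    refine (hpnt.comp ht).congr fun m => ?_
    simp only [Function.comp]
    have : ⌊(4 : ℝ) ^ m⌋₊ = 4 ^ m := by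
      have := Nat.floor_natCast (R := ℝ) (4 ^ m)
      push_cast at this
      exact this
    rw [this]
  have h2 : ∀ᶠ m : ℕ in atTop, (∑ k ∈ Icc 1 (4 ^ m), ArithmeticFunction.vonMangoldt.residueClass (a : ZMod l) k) / (4 : ℝ) ^ m < c + c / 5 :=
    h1.eventually (gt_mem_nhds (by linarith))
  have h3 : ∀ᶠ m : ℕ in atTop, c - c / 5 < (∑ k ∈ Icc 1 (4 ^ m), ArithmeticFunction.vonMangoldt.residueClass (a : ZMod l) k) / (4 : ℝ) ^ m :=
    h1.eventually (lt_mem_nhds (by linarith))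
  have h3' := (tendsto_add_atTop_nat 1).eventually h3
  have h4 : Tendsto (fun n : ℕ => (n : ℝ) ^ 1 * (1 / 2 : ℝ) ^ n) atTop (nhds 0) :=
    tendsto_pow_const_mul_const_pow_of_abs_lt_one 1 (by rw [abs_of_pos] <;> norm_num)
  have h5 : ∀ᶠ n : ℕ in atTop, (n : ℝ) ^ 1 * (1 / 2 : ℝ) ^ n < c / 16 :=
    h4.eventually (gt_mem_nhds (by positivity))
  filter_upwards [h2, h3', h5, eventually_ge_atTop 1] with m hm2 hm3 hm5 hm1
  have hx4 : (0 : ℝ) < 4 ^ m := by positivity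
  have hx : (0 : ℝ) < 2 ^ m := by positivity
  rw [div_lt_iff₀ hx4] at hm2
  rw [lt_div_iff₀ (by positivity)] at hm3
  have hsplit : ∑ n ∈ Ioc (4 ^ m) (4 ^ (m + 1)), omA l a n = ∑ n ∈ Icc 1 (4 ^ (m + 1)), omA l a n - ∑ n ∈ Icc 1 (4 ^ m), omA l a n := by
    rw [eq_sub_iff_add_eq, add_comm, ← sum_union]
    · apply sum_congr _ fun _ _ => rfl
      have : 4 ^ m ≤ 4 ^ (m + 1) := Nat.pow_le_pow_right (by norm_num) (by omega)
      have : 0 < 4 ^ m := by positivity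
      ext i; simp only [mem_union, mem_Icc, mem_Ioc]; omega
    · rw [disjoint_left]; intro i; simp only [mem_Icc, mem_Ioc]; omega
  rw [hsplit]
  obtain ⟨h6, -⟩ := psi_diff l a (4 ^ (m + 1)) (Nat.one_le_pow _ _ (by norm_num))
  obtain ⟨-, h7⟩ := psi_diff l a (4 ^ m) (Nat.one_le_pow _ _ (by norm_num))
  have hl4 : Real.log 4 ≤ 2 := log4
  have e1 : √(((4 ^ (m + 1) : ℕ) : ℝ)) = 2 * 2 ^ m := by
    push_cast
    rw [show (4 : ℝ) ^ (m + 1) = (2 * 2 ^ m) ^ 2 by rw [pow_succ, mul_pow, ← pow_mul, mul_comm m 2, pow_mul]; norm_num; ring]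
    exact Real.sqrt_sq (by positivity)
  have e2 : Real.log (((4 ^ (m + 1) : ℕ) : ℝ)) ≤ 4 * m := by
    push_cast
    rw [Real.log_pow]
    have : (1 : ℝ) ≤ m := by exact_mod_cast hm1
    push_cast
    nlinarith
  have e3 : 2 * √(((4 ^ (m + 1) : ℕ) : ℝ)) * Real.log (((4 ^ (m + 1) : ℕ) : ℝ)) ≤ c * 4 ^ m := by
    rw [e1]
    have h8 : (m : ℝ) * 16 ≤ c * 2 ^ m := by
      have : (1 / 2 : ℝ) ^ m = 1 / 2 ^ m := by rw [one_div_pow]
      rw [pow_one, this, mul_one_div, div_lt_div_iff₀ hx (by norm_num)] at hm5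
      linarith
    have e4 : (4 : ℝ) ^ m = 2 ^ m * 2 ^ m := by rw [← mul_pow]; norm_num
    rw [e4]
    calc 2 * (2 * (2 : ℝ) ^ m) * Real.log (((4 ^ (m + 1) : ℕ) : ℝ)) ≤ 2 * (2 * (2 : ℝ) ^ m) * (4 * m) := by gcongr
      _ = (m * 16) * 2 ^ m := by ring
      _ ≤ (c * 2 ^ m) * 2 ^ m := by gcongr
      _ = _ := by ring
  have e5 : (4 : ℝ) ^ (m + 1) = 4 * 4 ^ m := by ring
  rw [e5] at hm3
  have e6 : 1 / (l.totient : ℝ) = c := by rw [hc, one_div]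
  rw [e6]
  have : 0 < c * 4 ^ m := by positivity
  linarith

lemma VB_bound (A : ℕ) (hA : 1 ≤ A) (c : ℝ) (hc : 0 < c) (l : ℝ) (hl : 0 < l) (m : ℕ) (q : ℝ)
    (h1 : c * (2 : ℝ) ^ ((m : ℝ) / (2 * A)) ≤ q) (h2 : q ≤ l * 2 ^ (m + 2)) :
    VB (4 ^ (m + 1)) q ≤ (4 / √c + 4 + 4 * √l) * (2 : ℝ) ^ (-(m : ℝ) / (4 * A)) * 4 ^ m := by
  have hA0 : (1 : ℝ) ≤ A := by exact_mod_cast hA
  have hm0 : (0 : ℝ) ≤ m := Nat.cast_nonneg m
  have hq : 0 < q := lt_of_lt_of_le (by positivity) h1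
  have e4 : (4 : ℝ) ^ m = (2 : ℝ) ^ (2 * (m : ℝ)) := by
    rw [mul_comm, Real.rpow_mul (by norm_num), Real.rpow_natCast]
    norm_num
    rw [← pow_mul, mul_comm, pow_mul]; norm_num
  have t1 : (4 : ℝ) ^ (m + 1) / √q ≤ 4 / √c * (2 : ℝ) ^ (-(m : ℝ) / (4 * A)) * 4 ^ m := by
    have a1 : √c * (2 : ℝ) ^ ((m : ℝ) / (4 * A)) ≤ √q := by
      have : √(c * (2 : ℝ) ^ ((m : ℝ) / (2 * A))) = √c * (2 : ℝ) ^ ((m : ℝ) / (4 * A)) := by
        rw [Real.sqrt_mul hc.le]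
        congr 1
        rw [Real.sqrt_eq_iff_mul_self_eq (by positivity) (by positivity), ← Real.rpow_add (by norm_num)]
        congr 1
        field_simp
        ring
      rw [← this]
      exact Real.sqrt_le_sqrt h1
    have hsc : 0 < √c := Real.sqrt_pos.2 hc
    calc (4 : ℝ) ^ (m + 1) / √q ≤ (4 : ℝ) ^ (m + 1) / (√c * (2 : ℝ) ^ ((m : ℝ) / (4 * A))) := by
          apply div_le_div_of_nonneg_left (by positivity) (by positivity) a1
      _ = _ := by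
          rw [show -(m : ℝ) / (4 * A) = -((m : ℝ) / (4 * A)) by ring, Real.rpow_neg (by norm_num)]
          field_simp
          ring
  have t2 : ((4 : ℝ) ^ (m + 1)) ^ (4 / 5 : ℝ) ≤ 4 * (2 : ℝ) ^ (-(m : ℝ) / (4 * A)) * 4 ^ m := by
    have a1 : ((4 : ℝ) ^ (m + 1)) ^ (4 / 5 : ℝ) = (4 : ℝ) ^ (4 / 5 : ℝ) * (2 : ℝ) ^ (8 / 5 * (m : ℝ)) := by
      rw [pow_succ, Real.mul_rpow (by positivity) (by norm_num), mul_comm, e4, ← Real.rpow_mul (by norm_num)]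
      congr 2
      ring
    have a2 : (4 : ℝ) ^ (4 / 5 : ℝ) ≤ 4 := by
      calc (4 : ℝ) ^ (4 / 5 : ℝ) ≤ (4 : ℝ) ^ (1 : ℝ) := Real.rpow_le_rpow_of_exponent_le (by norm_num) (by norm_num)
        _ = 4 := Real.rpow_one _
    rw [a1, e4, mul_assoc, ← Real.rpow_add (by norm_num)]
    apply mul_le_mul a2 _ (by positivity) (by norm_num)
    apply Real.rpow_le_rpow_of_exponent_le (by norm_num)
    have : (m : ℝ) / (4 * A) ≤ m * (1 / 4) := by
      rw [div_le_iff₀ (by positivity)]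
      nlinarith
    rw [neg_div]
    linarith
  have t3 : √((4 : ℝ) ^ (m + 1) * q) ≤ 4 * √l * (2 : ℝ) ^ (-(m : ℝ) / (4 * A)) * 4 ^ m := by
    have a1 : (4 : ℝ) ^ (m + 1) * q ≤ (4 * √l * (2 : ℝ) ^ (3 / 2 * (m : ℝ))) ^ 2 := by
      have e5 : (4 * √l * (2 : ℝ) ^ (3 / 2 * (m : ℝ))) ^ 2 = 16 * l * (4 ^ m * 2 ^ m) := by
        rw [mul_pow, mul_pow, Real.sq_sqrt hl.le, ← Real.rpow_natCast ((2 : ℝ) ^ (3 / 2 * (m : ℝ))) 2, ← Real.rpow_mul (by norm_num)]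
        have : (4 : ℝ) ^ m * 2 ^ m = (2 : ℝ) ^ (3 / 2 * (m : ℝ) * ((2 : ℕ) : ℝ)) := by
          rw [e4, ← Real.rpow_natCast 2 m, ← Real.rpow_add (by norm_num)]
          congr 1
          push_cast
          ring
        rw [← this]
        norm_num
      rw [e5]
      calc (4 : ℝ) ^ (m + 1) * q ≤ (4 : ℝ) ^ (m + 1) * (l * 2 ^ (m + 2)) := by gcongr
        _ = _ := by ring
    have a2 : √((4 : ℝ) ^ (m + 1) * q) ≤ 4 * √l * (2 : ℝ) ^ (3 / 2 * (m : ℝ)) := by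
      rw [Real.sqrt_le_left (by positivity)]
      exact a1
    refine a2.trans ?_
    rw [e4, mul_assoc (4 * √l), ← Real.rpow_add (by norm_num)]
    apply mul_le_mul_of_nonneg_left _ (by positivity)
    apply Real.rpow_le_rpow_of_exponent_le (by norm_num)
    have : (m : ℝ) / (4 * A) ≤ m * (1 / 4) := by
      rw [div_le_iff₀ (by positivity)]
      nlinarith
    rw [neg_div]
    linarith
  unfold VB
  calc _ ≤ 4 / √c * (2 : ℝ) ^ (-(m : ℝ) / (4 * A)) * 4 ^ m + 4 * (2 : ℝ) ^ (-(m : ℝ) / (4 * A)) * 4 ^ m +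
        4 * √l * (2 : ℝ) ^ (-(m : ℝ) / (4 * A)) * 4 ^ m := by linarith
    _ = _ := by ring

/-- the arithmetic hypothesis for the block `(4^m, 4^(m+1)]` and the modulus `l` -/
def Key {ι : Type*} [Fintype ι] (A B l : ℕ) (c : ℝ) (m : ℕ) (α : ι → ℝ) : Prop :=
  ∀ h : ι → ℤ, h ≠ 0 → (∀ i, |h i| < 2 ^ (m / B)) → ∀ b : ℕ, ∃ (q : ℕ) (a : ℤ), 1 ≤ q ∧ IsCoprime a (q : ℤ) ∧
    |(∑ i, (h i : ℝ) * α i + b / l) - a / q| ≤ 1 / (q : ℝ) ^ 2 ∧ c * (2 : ℝ) ^ ((m : ℝ) / (2 * A)) ≤ q ∧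
    (q : ℝ) ≤ l * 2 ^ (m + 2)

/-- **The block bound.** -/
theorem block_main {ι : Type*} [Fintype ι] (A : ℕ) (hA : 1 ≤ A) (c : ℝ) (hc : 0 < c) {l a : ℕ} (hl : 1 ≤ l)
    (ha : a.Coprime l) :
    ∀ᶠ m : ℕ in atTop, ∀ α δ : ι → ℝ, Key A (16 * A * (Fintype.card ι + 1)) l c m α →
      1 / (2 * (l.totient : ℝ)) * ((m / (16 * A * (Fintype.card ι + 1)) : ℕ) : ℝ) ^ Fintype.card ι * 4 ^ m ≤
      ∑ n ∈ Ioc (4 ^ m) (4 ^ (m + 1)), omA l a n *
        ∏ i, GJ (m / (16 * A * (Fintype.card ι + 1))) ((n : ℝ) * α i - δ i) := by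
  classical
  obtain ⟨C, hC, hV⟩ := vinoP
  have hφ : (0 : ℝ) < l.totient := by exact_mod_cast Nat.totient_pos.2 hl
  have hl0 : (0 : ℝ) < l := by exact_mod_cast hl
  set k := Fintype.card ι with hk
  set B := 16 * A * (k + 1) with hB
  set r : ℝ := (2 : ℝ) ^ (-(3 : ℝ) / (16 * A)) with hr
  have hA0 : (1 : ℝ) ≤ A := by exact_mod_cast hA
  have hr0 : 0 < r := by positivity
  have hr1 : r < 1 := Real.rpow_lt_one_of_one_lt_of_neg (by norm_num) (div_neg_of_neg_of_pos (by norm_num) (by positivity))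
  set D : ℝ := 2 * C * 5 ^ 7 * (4 / √c + 4 + 4 * √(l : ℝ)) with hD
  have hsc := Real.sqrt_pos.2 hc
  have hD0 : 0 < D := by positivity
  have h1 : Tendsto (fun n : ℕ => (n : ℝ) ^ 7 * r ^ n) atTop (nhds 0) :=
    tendsto_pow_const_mul_const_pow_of_abs_lt_one 7 (by rw [abs_of_pos hr0]; exact hr1)
  have h2 : ∀ᶠ n : ℕ in atTop, (n : ℝ) ^ 7 * r ^ n < 1 / (2 * (l.totient : ℝ) * D) :=
    h1.eventually (gt_mem_nhds (by positivity))
  have hBpos : 0 < B := by positivity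
  filter_upwards [h2, theta_block hl ha, eventually_ge_atTop (max B 10)] with m hm hth hmB α δ hkey
  have hmB' : B ≤ m := (le_max_left _ _).trans hmB
  have hm10 : 10 ≤ m := (le_max_right _ _).trans hmB
  have hm10' : (10 : ℝ) ≤ m := by exact_mod_cast hm10
  set J := m / B with hJ
  have hJ1 : 1 ≤ J := (Nat.one_le_div_iff hBpos).2 hmB'
  set E : ℝ := 2 * (C * (5 * (m : ℝ)) ^ 7 * ((4 / √c + 4 + 4 * √(l : ℝ)) * (2 : ℝ) ^ (-(m : ℝ) / (4 * A)) * 4 ^ m)) with hE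
  have hE0 : 0 ≤ E := by positivity
  have key := block_lower (omA l a) J (4 ^ m) (4 ^ (m + 1)) α δ E (by
    intro h hh hlt
    apply norm_SW_omA_le hl
    intro b _
    obtain ⟨q, a', hq1, hcop, happ, hq2, hq3⟩ := hkey h hh hlt b
    have b1 := hV (4 ^ (m + 1)) q (Nat.one_le_pow _ _ (by norm_num)) hq1 a' hcop _ happ
    have b2 := hV (4 ^ m) q (Nat.one_le_pow _ _ (by norm_num)) hq1 a' hcop _ happ
    rw [SW_om (Nat.pow_le_pow_right (by norm_num) (by omega))]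
    push_cast at b1 b2
    have hqpos : (0 : ℝ) < q := by exact_mod_cast hq1
    have b3 : VB ((4 : ℝ) ^ m) q ≤ VB ((4 : ℝ) ^ (m + 1)) q :=
      VB_mono (by positivity) (pow_le_pow_right₀ (by norm_num) (by omega)) hqpos
    have b4 := VB_bound A hA c hc l hl0 m q hq2 hq3
    have hl4 : Real.log 4 ≤ 2 := log4
    have hl40 : 0 < Real.log 4 := Real.log_pos (by norm_num)
    have b5 : 1 + Real.log ((4 : ℝ) ^ (m + 1)) ≤ 5 * m := by
      rw [Real.log_pow]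
      push_cast
      nlinarith
    have b6 : 1 + Real.log ((4 : ℝ) ^ m) ≤ 5 * m := by
      rw [Real.log_pow]
      nlinarith
    have b7 : 0 ≤ 1 + Real.log ((4 : ℝ) ^ (m + 1)) := by
      rw [Real.log_pow]; positivity
    have b8 : 0 ≤ 1 + Real.log ((4 : ℝ) ^ m) := by
      rw [Real.log_pow]; positivity
    have hVB0 : 0 ≤ VB ((4 : ℝ) ^ m) q := by unfold VB; positivity
    have hVB1 : 0 ≤ VB ((4 : ℝ) ^ (m + 1)) q := hVB0.trans b3
    have b9 : C * (1 + Real.log ((4 : ℝ) ^ (m + 1))) ^ 7 * VB ((4 : ℝ) ^ (m + 1)) q ≤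
        C * (5 * (m : ℝ)) ^ 7 * ((4 / √c + 4 + 4 * √(l : ℝ)) * (2 : ℝ) ^ (-(m : ℝ) / (4 * A)) * 4 ^ m) := by gcongr
    have b10 : C * (1 + Real.log ((4 : ℝ) ^ m)) ^ 7 * VB ((4 : ℝ) ^ m) q ≤
        C * (5 * (m : ℝ)) ^ 7 * ((4 / √c + 4 + 4 * √(l : ℝ)) * (2 : ℝ) ^ (-(m : ℝ) / (4 * A)) * 4 ^ m) := by
      have := b3.trans b4
      gcongr
    calc ‖SP (4 ^ (m + 1)) (∑ i, (h i : ℝ) * α i + b / l) - SP (4 ^ m) (∑ i, (h i : ℝ) * α i + b / l)‖ ≤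
          ‖SP (4 ^ (m + 1)) (∑ i, (h i : ℝ) * α i + b / l)‖ + ‖SP (4 ^ m) (∑ i, (h i : ℝ) * α i + b / l)‖ := norm_sub_le _ _
      _ ≤ E := by rw [hE]; linarith) hE0
  refine le_trans ?_ key
  have hx4 : (0 : ℝ) < 4 ^ m := by positivity
  have hJk : (1 : ℝ) ≤ (J : ℝ) ^ k := one_le_pow₀ (by exact_mod_cast hJ1)
  have hmain : ((2 : ℝ) ^ J) ^ k * E ≤ 1 / (2 * (l.totient : ℝ)) * 4 ^ m := by
    have c1 : ((2 : ℝ) ^ J) ^ k ≤ (2 : ℝ) ^ ((m : ℝ) / (16 * A)) := by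
      rw [← pow_mul, ← Real.rpow_natCast]
      apply Real.rpow_le_rpow_of_exponent_le (by norm_num)
      rw [le_div_iff₀ (by positivity)]
      have c2 : J * k * (16 * A) ≤ m := by
        calc J * k * (16 * A) ≤ J * (k + 1) * (16 * A) := by gcongr; omega
          _ = J * B := by rw [hB]; ring
          _ ≤ m := Nat.div_mul_le_self m B
      exact_mod_cast c2
    have c3 : (2 : ℝ) ^ ((m : ℝ) / (16 * A)) * (2 : ℝ) ^ (-(m : ℝ) / (4 * A)) = r ^ m := by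
      rw [← Real.rpow_add (by norm_num), hr, ← Real.rpow_natCast, ← Real.rpow_mul (by norm_num)]
      congr 1
      field_simp
      ring
    calc ((2 : ℝ) ^ J) ^ k * E ≤ (2 : ℝ) ^ ((m : ℝ) / (16 * A)) * E := by gcongr
      _ = D * ((m : ℝ) ^ 7 * ((2 : ℝ) ^ ((m : ℝ) / (16 * A)) * (2 : ℝ) ^ (-(m : ℝ) / (4 * A)))) * 4 ^ m := by
          rw [hE, hD]; ring
      _ = D * ((m : ℝ) ^ 7 * r ^ m) * 4 ^ m := by rw [c3]
      _ ≤ D * (1 / (2 * (l.totient : ℝ) * D)) * 4 ^ m := by gcongr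
      _ = 1 / (2 * (l.totient : ℝ)) * 4 ^ m := by field_simp
  have h5 : (J : ℝ) ^ k * (1 / (l.totient : ℝ) * 4 ^ m) ≤ (J : ℝ) ^ k * (∑ n ∈ Ioc (4 ^ m) (4 ^ (m + 1)), omA l a n) := by
    gcongr
  have h6 : 1 / (2 * (l.totient : ℝ)) * (4 : ℝ) ^ m ≤ 1 / (2 * (l.totient : ℝ)) * (J : ℝ) ^ k * 4 ^ m := by
    have : 0 < 1 / (2 * (l.totient : ℝ)) * (4 : ℝ) ^ m := by positivity
    nlinarith
  have h7 : (J : ℝ) ^ k * (1 / (l.totient : ℝ) * 4 ^ m) = 2 * (1 / (2 * (l.totient : ℝ)) * (J : ℝ) ^ k * 4 ^ m) := by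
    field_simp
  linarith

end Pool.Agent.V7H17.LP
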