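import Mathlib
import Pool.Agent.X152.DS.Gcd
import Pool.Agent.V7H17.LP.Fejer

/-! The metric statement along the primes, from the inhomogeneous Duffin-Schaeffer theorem with a
condition on gcd sums. -/

set_option autoImplicit false

namespace Pool.Agent.V7H17.LP
open MeasureTheory Finset Filter

lemma nn_le (x : ℝ) (n : ℤ) : nn x ≤ |x - n| := round_le x n

lemma nn_add_int (x : ℝ) (n : ℤ) : nn (x + n) = nn x := by
  unfold nn
  rw [round_add_intCast]
  push_cast
  congr 1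
  ring

lemma continuous_nn : Continuous nn := by
  have : nn = fun x : ℝ => ‖(x : UnitAddCircle)‖ := by
    ext x
    rw [UnitAddCircle.norm_eq]
    rfl
  rw [this]
  exact continuous_norm.comp (AddCircle.continuous_mk' 1)

/-- full measure on the unit interval -/
theorem metric01 (Ψ : ℕ → ℝ) (h0 : ∀ n, 0 ≤ Ψ n) (hsupp : ∀ n : ℕ, ¬ n.Prime → Ψ n = 0)
    (hbd : ∃ B : ℝ, ∀ n, Ψ n ≤ B) (hdiv : ¬ Summable Ψ) (γ : ℕ → ℝ) :
    volume {x : ℝ | x ∈ Set.Icc (0 : ℝ) 1 ∧ ∃ᶠ p : ℕ in atTop, ∃ a : ℤ, Int.gcd a (p : ℤ) = 1 ∧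
      |(p : ℝ) * x - (a : ℝ) - γ p| < Ψ p} = 1 := by
  classical
  have hle : ∀ n, Ψ n ≤ 2 * ((Nat.totient n : ℝ) * Ψ n / n) := by
    intro n
    by_cases hp : n.Prime
    · rw [Nat.totient_prime hp]
      have h2 : (2 : ℝ) ≤ n := by exact_mod_cast hp.two_le
      rw [Nat.cast_sub hp.one_le, Nat.cast_one]
      have h3 : (1 : ℝ) / 2 ≤ (n - 1) / n := by
        rw [div_le_div_iff₀ (by norm_num) (by linarith)]; linarith
      have h4 : 2 * (((n : ℝ) - 1) * Ψ n / n) = 2 * (((n - 1) / n) * Ψ n) := by ring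
      rw [h4]
      nlinarith [h0 n]
    · rw [hsupp n hp]; simp
  have hnn : ∀ n, 0 ≤ (Nat.totient n : ℝ) * Ψ n / n := fun n => by
    have := h0 n
    positivity
  have hdiv' : ¬ Summable (fun q : ℕ => (Nat.totient q : ℝ) * Ψ q / (q : ℝ)) := by
    intro hs
    exact hdiv (Summable.of_nonneg_of_le h0 hle (hs.mul_left 2))
  apply Pool.Agent.X152.DS.thm_gcd γ Ψ h0 hbd hdiv'
  refine ⟨1 / 2, 2, by norm_num, ?_⟩
  have hD : Tendsto (fun Q : ℕ => ∑ q ∈ range Q, (Nat.totient q : ℝ) * Ψ q / (q : ℝ)) atTop atTop :=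
    (not_summable_iff_tendsto_nat_atTop_of_nonneg hnn).1 hdiv'
  have hD1 : ∀ᶠ Q : ℕ in atTop, 1 ≤ ∑ q ∈ range (Q + 1), (Nat.totient q : ℝ) * Ψ q / (q : ℝ) :=
    (hD.comp (tendsto_add_atTop_nat 1)).eventually_ge_atTop 1
  apply Eventually.frequently
  filter_upwards [hD1] with Q hQ
  have hrange : ∑ q ∈ range (Q + 1), (Nat.totient q : ℝ) * Ψ q / (q : ℝ) =
      ∑ q ∈ Icc 1 Q, (Nat.totient q : ℝ) * Ψ q / (q : ℝ) := by
    have : range (Q + 1) = insert 0 (Icc 1 Q) := by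
      ext i; simp only [mem_range, mem_insert, mem_Icc]; omega
    rw [this, sum_insert (by simp)]
    simp
  rw [hrange] at hQ
  have hsum : ∑ q ∈ Icc 1 Q, Ψ q ≤ 2 * ∑ q ∈ Icc 1 Q, (Nat.totient q : ℝ) * Ψ q / (q : ℝ) := by
    rw [mul_sum]
    exact sum_le_sum fun q _ => hle q
  refine ⟨by linarith, ?_⟩
  have hin : ∀ r ∈ (Icc 1 Q).filter (fun r : ℕ => (1 / 2 : ℝ) / 2 * (r : ℝ) ≤ (Nat.totient r : ℝ)),
      ∑ q ∈ (Icc 1 Q).filter (fun q : ℕ => (1 / 2 : ℝ) / 2 * (q : ℝ) ≤ (Nat.totient q : ℝ) ∧ q < r),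
          (Nat.gcd q r : ℝ) * min (Ψ q / q) (Ψ r / r) ≤ Ψ r := by
    intro r hr
    simp only [mem_filter, mem_Icc] at hr
    have hr0 : (0 : ℝ) < r := by exact_mod_cast hr.1.1
    calc _ ≤ ∑ q ∈ (Icc 1 Q).filter (fun q : ℕ => (1 / 2 : ℝ) / 2 * (q : ℝ) ≤ (Nat.totient q : ℝ) ∧ q < r), Ψ r / r := by
          apply sum_le_sum
          intro q hq
          simp only [mem_filter, mem_Icc] at hq
          have hq0 : (0 : ℝ) < q := by exact_mod_cast hq.1.1
          by_cases hqp : q.Prime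
          · by_cases hrp : r.Prime
            · have hg : Nat.gcd q r = 1 := by
                have := (Nat.coprime_primes hqp hrp).2 (by omega)
                exact this
              rw [hg, Nat.cast_one, one_mul]
              exact min_le_right _ _
            · rw [hsupp r hrp]
              have := h0 q
              rw [zero_div, min_eq_right (by positivity), mul_zero]
          · rw [hsupp q hqp]
            have := h0 r
            rw [zero_div, min_eq_left (by positivity), mul_zero]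
            positivity
      _ ≤ ∑ q ∈ Icc 1 r, Ψ r / r := by
          apply sum_le_sum_of_subset_of_nonneg
          · intro q hq
            simp only [mem_filter, mem_Icc] at hq ⊢
            omega
          · intro _ _ _
            have := h0 r
            positivity
      _ = Ψ r := by
          rw [sum_const, Nat.card_Icc, Nat.add_sub_cancel, nsmul_eq_mul]
          field_simp
  calc _ ≤ ∑ r ∈ (Icc 1 Q).filter (fun r : ℕ => (1 / 2 : ℝ) / 2 * (r : ℝ) ≤ (Nat.totient r : ℝ)), Ψ r := sum_le_sum hin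
    _ ≤ ∑ r ∈ Icc 1 Q, Ψ r := sum_le_sum_of_subset_of_nonneg (filter_subset _ _) fun r _ _ => h0 r
    _ ≤ 2 * ∑ q ∈ Icc 1 Q, (Nat.totient q : ℝ) * Ψ q / (q : ℝ) := hsum
    _ ≤ _ := by nlinarith

/-- **The metric statement along the primes.** -/
theorem metric (Ψ : ℕ → ℝ) (h0 : ∀ n, 0 ≤ Ψ n) (hsupp : ∀ n : ℕ, ¬ n.Prime → Ψ n = 0)
    (hbd : ∃ B : ℝ, ∀ n, Ψ n ≤ B) (hdiv : ¬ Summable Ψ) (γ : ℕ → ℝ) :
    ∀ᵐ β : ℝ, ∃ᶠ p : ℕ in atTop, nn ((p : ℝ) * β - γ p) < Ψ p := by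
  set P : ℝ → Prop := fun β => ∃ᶠ p : ℕ in atTop, nn ((p : ℝ) * β - γ p) < Ψ p with hP
  have hmeas : MeasurableSet {β : ℝ | P β} := by
    have : {β : ℝ | P β} = ⋂ N : ℕ, ⋃ p : ℕ, ⋃ (_ : N ≤ p), {β : ℝ | nn ((p : ℝ) * β - γ p) < Ψ p} := by
      ext β
      simp only [hP, frequently_atTop, Set.mem_ofPred_eq, Set.mem_iInter, Set.mem_iUnion, exists_prop]
    rw [this]
    refine MeasurableSet.iInter fun N => MeasurableSet.iUnion fun p => MeasurableSet.iUnion fun _ => ?_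
    apply IsOpen.measurableSet
    exact isOpen_lt (continuous_nn.comp (by fun_prop)) continuous_const
  have h01 : volume (Set.Icc (0 : ℝ) 1 \ {β : ℝ | P β}) = 0 := by
    have h1 := metric01 Ψ h0 hsupp hbd hdiv γ
    have h2 : volume (Set.Icc (0 : ℝ) 1 ∩ {β : ℝ | P β}) = 1 := by
      apply le_antisymm
      · calc volume (Set.Icc (0 : ℝ) 1 ∩ {β : ℝ | P β}) ≤ volume (Set.Icc (0 : ℝ) 1) := measure_mono Set.inter_subset_left
          _ = 1 := by rw [Real.volume_Icc]; simp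
      · rw [← h1]
        apply measure_mono
        rintro x ⟨hx, hf⟩
        refine ⟨hx, hf.mono ?_⟩
        rintro p ⟨a, -, ha⟩
        refine lt_of_le_of_lt (nn_le _ a) ?_
        have : (p : ℝ) * x - γ p - a = (p : ℝ) * x - a - γ p := by ring
        rw [this]
        exact ha
    have h3 := measure_sdiff_add_inter (μ := volume) (Set.Icc (0 : ℝ) 1) hmeas
    rw [h2, Real.volume_Icc] at h3
    simp only [sub_zero, ENNReal.ofReal_one] at h3
    have h4 : volume (Set.Icc (0 : ℝ) 1 \ {β : ℝ | P β}) + 1 = 0 + 1 := by rw [h3, zero_add]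
    exact (ENNReal.add_left_inj ENNReal.one_ne_top).1 h4
  rw [ae_iff]
  have hper : ∀ (β : ℝ) (m : ℤ), P (β - m) ↔ P β := by
    intro β m
    simp only [hP]
    have : ∀ p : ℕ, nn ((p : ℝ) * (β - m) - γ p) = nn ((p : ℝ) * β - γ p) := by
      intro p
      have h5 := nn_add_int ((p : ℝ) * (β - m) - γ p) ((p : ℤ) * m)
      rw [← h5]
      congr 1
      push_cast
      ring
    simp_rw [this]
  have hsub : {a : ℝ | ¬ P a} ⊆ ⋃ m : ℤ, (fun β : ℝ => β - m) ⁻¹' (Set.Icc (0 : ℝ) 1 \ {β : ℝ | P β}) := by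
    intro β hβ
    rw [Set.mem_iUnion]
    refine ⟨⌊β⌋, ?_⟩
    simp only [Set.mem_preimage, Set.mem_sdiff, Set.mem_Icc, Set.mem_ofPred_eq]
    refine ⟨⟨?_, ?_⟩, ?_⟩
    · have := Int.floor_le β; linarith
    · have := Int.lt_floor_add_one β; linarith
    · rw [hper]; exact hβ
  refine measure_mono_null hsub ?_
  rw [measure_iUnion_null_iff]
  intro m
  have he : (fun β : ℝ => β - m) = fun β : ℝ => β + (-(m : ℝ)) := by
    ext β; ring
  rw [he, measure_preimage_add_right]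
  exact h01

end Pool.Agent.V7H17.LP
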