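import Mathlib
import Pool.Agent.V7H17.LP.Block
import Pool.Agent.V7H17.LP.Metric

/-! Assembly: from divergence of block sums to the metric statement. -/

set_option autoImplicit false

namespace Pool.Agent.V7H17.LP
open MeasureTheory Finset Filter
open Pool.Agent.W301.SS

/-- the block of `n`: `4^m < n ≤ 4^(m+1)` -/
def bl (n : ℕ) : ℕ := Nat.log 4 (n - 1)

lemma bl_eq {m n : ℕ} (h : n ∈ Ioc (4 ^ m) (4 ^ (m + 1))) : bl n = m := by
  rw [mem_Ioc] at h
  unfold bl
  apply Nat.log_eq_of_pow_le_of_lt_pow <;> omega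

lemma bl_lt {n : ℕ} (h : 2 ≤ n) : 4 ^ bl n < n := by
  unfold bl
  have := Nat.pow_log_le_self 4 (x := n - 1) (by omega)
  omega

open Classical in
/-- the approximating function for the second coordinate -/
noncomputable def Psi {ι : Type*} [Fintype ι] (B l a : ℕ) (α δ : ι → ℝ) (φ : ℕ → ℝ) (n : ℕ) : ℝ :=
  if n.Prime ∧ n ≡ a [MOD l] then φ n * ∏ i, (GJ (bl n / B) ((n : ℝ) * α i - δ i) / 5) else 0

section
variable {ι : Type*} [Fintype ι] (B l a : ℕ) (α δ : ι → ℝ) (φ : ℕ → ℝ)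

lemma prod_GJ_nonneg (J : ℕ) (x : ι → ℝ) : 0 ≤ ∏ i, (GJ J (x i) / 5) :=
  prod_nonneg fun i _ => div_nonneg (GJ_nonneg _ _) (by norm_num)

lemma Psi_nonneg (h0 : ∀ n, 0 ≤ φ n) (n : ℕ) : 0 ≤ Psi B l a α δ φ n := by
  unfold Psi
  split_ifs
  · exact mul_nonneg (h0 n) (prod_GJ_nonneg _ _)
  · exact le_rfl

lemma Psi_le (hB : Fintype.card ι ≤ B) (h0 : ∀ n, 0 ≤ φ n) (h1 : ∀ n : ℕ, φ n * √n ≤ 1) (n : ℕ) :
    Psi B l a α δ φ n ≤ 1 := by
  unfold Psi
  split_ifs with hp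
  · have h2 : ∏ i, (GJ (bl n / B) ((n : ℝ) * α i - δ i) / 5) ≤ √n := by
      calc ∏ i, (GJ (bl n / B) ((n : ℝ) * α i - δ i) / 5) ≤ ∏ _i : ι, (2 : ℝ) ^ (bl n / B) := by
            apply Finset.prod_le_prod
            · intro i _; exact div_nonneg (GJ_nonneg _ _) (by norm_num)
            · intro i _
              have a1 := GJ_le_pow (bl n / B) ((n : ℝ) * α i - δ i)
              have a2 := GJ_nonneg (bl n / B) ((n : ℝ) * α i - δ i)
              linarith
        _ = (2 : ℝ) ^ (bl n / B * Fintype.card ι) := by rw [prod_const, card_univ, pow_mul]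
        _ ≤ (2 : ℝ) ^ (bl n) := by
            apply pow_le_pow_right₀ (by norm_num)
            calc bl n / B * Fintype.card ι ≤ bl n / B * B := Nat.mul_le_mul_left _ hB
              _ ≤ bl n := Nat.div_mul_le_self _ _
        _ ≤ √n := by
            apply Real.le_sqrt_of_sq_le
            have a3 : ((4 ^ bl n : ℕ) : ℝ) ≤ n := by exact_mod_cast (bl_lt hp.1.two_le).le
            push_cast at a3
            calc ((2 : ℝ) ^ bl n) ^ 2 = 4 ^ bl n := by rw [← pow_mul, mul_comm, pow_mul]; norm_num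
              _ ≤ n := a3
    calc φ n * ∏ i, (GJ (bl n / B) ((n : ℝ) * α i - δ i) / 5) ≤ φ n * √n := mul_le_mul_of_nonneg_left h2 (h0 n)
      _ ≤ 1 := h1 n
  · norm_num

lemma Psi_good (h0 : ∀ n, 0 ≤ φ n) {n : ℕ} {t : ℝ} (ht0 : 0 ≤ t) (ht : t < Psi B l a α δ φ n) :
    n.Prime ∧ n ≡ a [MOD l] ∧ (∏ i, nn ((n : ℝ) * α i - δ i)) * t < φ n := by
  unfold Psi at ht
  split_ifs at ht with hp
  · refine ⟨hp.1, hp.2, ?_⟩
    set P := ∏ i, (GJ (bl n / B) ((n : ℝ) * α i - δ i) / 5) with hP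
    have hP0 : 0 ≤ P := prod_GJ_nonneg _ _
    have hφ : 0 < φ n := by
      rcases (h0 n).lt_or_eq with h | h
      · exact h
      · rw [← h, zero_mul] at ht
        linarith
    set N := ∏ i, nn ((n : ℝ) * α i - δ i) with hN
    have hN0 : 0 ≤ N := prod_nonneg fun i _ => nn_nonneg _
    rcases hN0.lt_or_eq with h | h
    · have h3 : N * P ≤ 1 := by
        rw [hN, hP, ← prod_mul_distrib]
        apply prod_le_one
        · intro i _
          exact mul_nonneg (nn_nonneg _) (div_nonneg (GJ_nonneg _ _) (by norm_num))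
        · intro i _
          have := GJ_far (bl n / B) ((n : ℝ) * α i - δ i)
          rw [mul_div_assoc']
          linarith
      calc N * t < N * (φ n * P) := mul_lt_mul_of_pos_left ht h
        _ = φ n * (N * P) := by ring
        _ ≤ φ n * 1 := mul_le_mul_of_nonneg_left h3 (h0 n)
        _ = φ n := mul_one _
    · rw [← h, zero_mul]; exact hφ
  · linarith

lemma sum_blocks (f : ℕ → ℝ) (K : ℕ) : ∑ m ∈ range K, ∑ n ∈ Ioc (4 ^ m) (4 ^ (m + 1)), f n = ∑ n ∈ Ioc 1 (4 ^ K), f n := by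
  induction K with
  | zero => simp
  | succ K ih =>
    rw [sum_range_succ, ih]
    exact sum_Ioc_consecutive f (Nat.one_le_pow _ _ (by norm_num)) (Nat.pow_le_pow_right (by norm_num) (by omega))

lemma summable_blocks {f : ℕ → ℝ} (h0 : ∀ n, 0 ≤ f n) (hs : Summable f) :
    Summable fun m : ℕ => ∑ n ∈ Ioc (4 ^ m) (4 ^ (m + 1)), f n := by
  apply summable_of_sum_range_le (c := ∑' n, f n)
  · intro m; exact sum_nonneg fun n _ => h0 n
  · intro K
    rw [sum_blocks]
    exact hs.sum_le_tsum _ fun n _ => h0 n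

lemma summable_of_blocks {f : ℕ → ℝ} (h0 : ∀ n, 0 ≤ f n)
    (hs : Summable fun m : ℕ => ∑ n ∈ Ioc (4 ^ m) (4 ^ (m + 1)), f n) : Summable f := by
  apply summable_of_sum_range_le (c := f 0 + f 1 + ∑' m : ℕ, ∑ n ∈ Ioc (4 ^ m) (4 ^ (m + 1)), f n) h0
  intro K
  have h1 : range K ⊆ insert 0 (insert 1 (Ioc 1 (4 ^ K))) := by
    intro i hi
    rw [mem_range] at hi
    have : K < 4 ^ K := Nat.lt_pow_self (by norm_num)
    simp only [mem_insert, mem_Ioc]
    omega
  calc ∑ i ∈ range K, f i ≤ ∑ i ∈ insert 0 (insert 1 (Ioc 1 (4 ^ K))), f i :=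
        sum_le_sum_of_subset_of_nonneg h1 fun i _ _ => h0 i
    _ = f 0 + (f 1 + ∑ i ∈ Ioc 1 (4 ^ K), f i) := by
        rw [sum_insert (by simp), sum_insert (by simp)]
    _ ≤ _ := by
        rw [← sum_blocks]
        have := hs.sum_le_tsum (range K) fun m _ => sum_nonneg fun n _ => h0 n
        linarith

/-- **Divergence of the block sums suffices.** -/
theorem ae_of_blocks (hB : Fintype.card ι ≤ B) (h0 : ∀ n, 0 ≤ φ n) (h1 : ∀ n : ℕ, φ n * √n ≤ 1)
    (hdiv : ¬ Summable fun m : ℕ => ∑ n ∈ Ioc (4 ^ m) (4 ^ (m + 1)), Psi B l a α δ φ n) (γ : ℕ → ℝ) :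
    ∀ᵐ β : ℝ, ∃ᶠ p : ℕ in atTop, p.Prime ∧ p ≡ a [MOD l] ∧
      (∏ i, nn ((p : ℝ) * α i - δ i)) * nn ((p : ℝ) * β - γ p) < φ p := by
  have h2 := metric (Psi B l a α δ φ) (Psi_nonneg B l a α δ φ h0) (fun n hn => by unfold Psi; rw [if_neg (fun h => hn h.1)])
    ⟨1, Psi_le B l a α δ φ hB h0 h1⟩ (fun hs => hdiv (summable_blocks (Psi_nonneg B l a α δ φ h0) hs)) γ
  filter_upwards [h2] with β hβ
  exact hβ.mono fun p hp => Psi_good B l a α δ φ h0 (nn_nonneg _) hp

/-- lower bound for a block sum -/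
lemma block_sum_ge (m : ℕ) (h0 : ∀ n, 0 ≤ φ n) (hanti : Antitone φ) :
    φ (4 ^ (m + 1)) / (2 * (m + 1) * 5 ^ Fintype.card ι) *
      (∑ n ∈ Ioc (4 ^ m) (4 ^ (m + 1)), omA l a n * ∏ i, GJ (m / B) ((n : ℝ) * α i - δ i)) ≤
    ∑ n ∈ Ioc (4 ^ m) (4 ^ (m + 1)), Psi B l a α δ φ n := by
  rw [mul_sum]
  apply sum_le_sum
  intro n hn
  by_cases hp : n.Prime ∧ n ≡ a [MOD l]
  · unfold Psi omA om
    rw [if_pos hp.2, if_pos hp.1, if_pos hp]
    rw [bl_eq hn]
    rw [mem_Ioc] at hn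
    have h2 : φ (4 ^ (m + 1)) ≤ φ n := hanti hn.2
    have h3 : Real.log n ≤ 2 * (m + 1) := by
      calc Real.log n ≤ Real.log ((4 : ℝ) ^ (m + 1)) := by
            apply Real.log_le_log (by exact_mod_cast hp.1.pos)
            exact_mod_cast hn.2
        _ = (m + 1) * Real.log 4 := by rw [Real.log_pow]; push_cast; ring
        _ ≤ (m + 1) * 2 := by
            apply mul_le_mul_of_nonneg_left log4 (by positivity)
        _ = _ := by ring
    have h4 : 0 ≤ Real.log n := Real.log_natCast_nonneg n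
    have h5 : ∏ i, (GJ (m / B) ((n : ℝ) * α i - δ i) / 5) = (∏ i, GJ (m / B) ((n : ℝ) * α i - δ i)) / 5 ^ Fintype.card ι := by
      rw [prod_div_distrib, prod_const, card_univ]
    rw [h5]
    set P := ∏ i, GJ (m / B) ((n : ℝ) * α i - δ i) with hP
    have hP0 : 0 ≤ P := prod_nonneg fun i _ => GJ_nonneg _ _
    have hm : (0 : ℝ) < 2 * (m + 1) := by positivity
    have h50 : (0 : ℝ) < 5 ^ Fintype.card ι := by positivity
    calc φ (4 ^ (m + 1)) / (2 * (m + 1) * 5 ^ Fintype.card ι) * (Real.log n * P) =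
        φ (4 ^ (m + 1)) * (Real.log n / (2 * (m + 1))) * (P / 5 ^ Fintype.card ι) := by field_simp
      _ ≤ φ n * 1 * (P / 5 ^ Fintype.card ι) := by
          apply mul_le_mul_of_nonneg_right _ (by positivity)
          apply mul_le_mul h2 _ (by positivity) (h0 n)
          rw [div_le_one hm]
          exact h3
      _ = _ := by ring
  · have h1 : omA l a n = 0 := by
      unfold omA om
      split_ifs with h2 h3
      · exact absurd ⟨h3, h2⟩ hp
      · rfl
      · rfl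
    rw [h1, zero_mul, mul_zero]
    exact Psi_nonneg B l a α δ φ h0 n

end

end Pool.Agent.V7H17.LP
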