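import Mathlib
import Pool.Agent.V7H17.LP.Asm

/-! The arithmetic hypotheses: tuples with a Diophantine condition, and irrational numbers at
special scales. -/

set_option autoImplicit false

namespace Pool.Agent.V7H17.LP
open MeasureTheory Finset Filter
open Pool.Agent.W301.SS

/-- the Diophantine condition `‖h·α‖ ≥ c |h|^(-A)` for all nonzero integer vectors `h` -/
def Dio {ι : Type*} [Fintype ι] (α : ι → ℝ) : Prop :=
  ∃ (A : ℕ) (c : ℝ), 0 < c ∧ ∀ h : ι → ℤ, h ≠ 0 → c ≤ ‖h‖ ^ A * nn (∑ i, (h i : ℝ) * α i)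

lemma exists_approx (ξ : ℝ) {n : ℕ} (hn : 0 < n) : ∃ (q : ℕ) (a : ℤ), 1 ≤ q ∧ q ≤ n ∧ IsCoprime a (q : ℤ) ∧
    |ξ - a / q| ≤ 1 / ((n + 1) * q) ∧ |ξ - a / q| ≤ 1 / (q : ℝ) ^ 2 := by
  obtain ⟨x, h1, h2⟩ := Real.exists_rat_abs_sub_le_and_den_le ξ hn
  have hx0 : (0 : ℝ) < x.den := by exact_mod_cast x.pos
  have e : (x : ℝ) = (x.num : ℝ) / x.den := by
    exact_mod_cast (Rat.num_div_den x).symm
  refine ⟨x.den, x.num, x.pos, h2, ?_, ?_, ?_⟩
  · exact Int.isCoprime_iff_gcd_eq_one.2 x.reduced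
  · rw [← e]; exact h1
  · rw [← e]
    refine h1.trans ?_
    rw [pow_two]
    apply one_div_le_one_div_of_le (by positivity)
    apply mul_le_mul_of_nonneg_right _ hx0.le
    have : (x.den : ℝ) ≤ n := by exact_mod_cast h2
    linarith

theorem key_of_dio {ι : Type*} [Fintype ι] {α : ι → ℝ} (hα : Dio α) {l : ℕ} (hl : 1 ≤ l) : ∃ (A : ℕ) (c : ℝ), 1 ≤ A ∧ 0 < c ∧
    ∀ m : ℕ, Key A (16 * A * (Fintype.card ι + 1)) l c m α := by
  obtain ⟨A0, c0, hc0, hdio⟩ := hα
  have hl0 : (0 : ℝ) < l := by exact_mod_cast hl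
  set A := A0 + 1 with hA
  set c := min (c0 / (l : ℝ) ^ (A + 1)) 1 with hc
  have hcpos : 0 < c := lt_min (by positivity) one_pos
  have hdio' : ∀ h : ι → ℤ, h ≠ 0 → c * (l : ℝ) ^ (A + 1) ≤ ‖h‖ ^ A * nn (∑ i, (h i : ℝ) * α i) := by
    intro h hh
    have h1 : 1 ≤ ‖h‖ := by
      obtain ⟨i, hi⟩ : ∃ i, h i ≠ 0 := by
        by_contra hcon
        push Not at hcon
        exact hh (funext hcon)
      have h2 : ‖h i‖ ≤ ‖h‖ := norm_le_pi_norm h i
      have h3 : (1 : ℝ) ≤ ‖h i‖ := by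
        rw [Int.norm_eq_abs]
        exact_mod_cast Int.one_le_abs hi
      linarith
    calc c * (l : ℝ) ^ (A + 1) ≤ (c0 / (l : ℝ) ^ (A + 1)) * (l : ℝ) ^ (A + 1) := by
          apply mul_le_mul_of_nonneg_right (min_le_left _ _) (by positivity)
      _ = c0 := by field_simp
      _ ≤ ‖h‖ ^ A0 * nn (∑ i, (h i : ℝ) * α i) := hdio h hh
      _ ≤ ‖h‖ ^ A * nn (∑ i, (h i : ℝ) * α i) := by
          apply mul_le_mul_of_nonneg_right _ (nn_nonneg _)
          exact pow_le_pow_right₀ h1 (by omega)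
  refine ⟨A, c, by omega, hcpos, fun m h hh hlt b => ?_⟩
  set B := 16 * A * (Fintype.card ι + 1) with hB
  set J := m / B with hJ
  obtain ⟨q, a, hq1, hqn, hcop, h1, h2⟩ := exists_approx (∑ i, (h i : ℝ) * α i + b / l) (n := 2 ^ m) (by positivity)
  refine ⟨q, a, hq1, hcop, h2, ?_, ?_⟩
  · by_contra hcon
    push Not at hcon
    have hq0 : (0 : ℝ) < q := by exact_mod_cast hq1
    set h' : ι → ℤ := fun i => (q : ℤ) * l * h i with hh'
    have hne : h' ≠ 0 := by
      intro h0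
      apply hh
      ext i
      have := congrFun h0 i
      simp only [hh', Pi.zero_apply, mul_eq_zero] at this
      rcases this with (h3 | h3) | h3
      · exfalso; have : q = 0 := by exact_mod_cast h3
        omega
      · exfalso; have : l = 0 := by exact_mod_cast h3
        omega
      · exact h3
    have h3 := hdio' h' hne
    have h4 : nn (∑ i, (h' i : ℝ) * α i) ≤ l * (1 / 2 ^ m) := by
      have e1 : ∑ i, (h' i : ℝ) * α i = q * l * ∑ i, (h i : ℝ) * α i := by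
        rw [mul_sum]
        apply sum_congr rfl
        intro i _
        simp only [hh']
        push_cast
        ring
      refine (nn_le _ (a * l - q * b)).trans ?_
      rw [e1]
      have e2 : (q : ℝ) * l * ∑ i, (h i : ℝ) * α i - ((a * l - q * b : ℤ) : ℝ) =
          l * (q * (∑ i, (h i : ℝ) * α i + b / l - a / q)) := by
        push_cast
        field_simp
        ring
      rw [e2, abs_mul, abs_mul, abs_of_pos hq0, abs_of_pos hl0]
      apply mul_le_mul_of_nonneg_left _ hl0.le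
      calc (q : ℝ) * |∑ i, (h i : ℝ) * α i + b / l - a / q| ≤ q * (1 / (((2 ^ m : ℕ) + 1) * q)) := by gcongr
        _ = 1 / (((2 ^ m : ℕ) : ℝ) + 1) := by field_simp
        _ ≤ 1 / 2 ^ m := by
            push_cast
            apply one_div_le_one_div_of_le (by positivity)
            linarith
    have h5 : ‖h'‖ ≤ l * (q * 2 ^ J) := by
      rw [pi_norm_le_iff_of_nonneg (by positivity)]
      intro i
      rw [Int.norm_eq_abs]
      simp only [hh']
      push_cast
      rw [abs_mul, abs_mul, abs_of_pos hq0, abs_of_pos hl0]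
      have := (hlt i).le
      have h6 : (|h i| : ℤ) ≤ 2 ^ J := this
      have h7 : ((|h i| : ℤ) : ℝ) ≤ ((2 ^ J : ℤ) : ℝ) := by exact_mod_cast h6
      push_cast at h7
      calc (q : ℝ) * l * |(h i : ℝ)| = l * (q * |(h i : ℝ)|) := by ring
        _ ≤ l * (q * 2 ^ J) := by gcongr
    have h8 : c * 2 ^ m ≤ (q * 2 ^ J) ^ A := by
      have h9 : c * (l : ℝ) ^ (A + 1) ≤ (l * (q * 2 ^ J)) ^ A * (l * (1 / 2 ^ m)) :=
        h3.trans (mul_le_mul (pow_le_pow_left₀ (norm_nonneg _) h5 A) h4 (nn_nonneg _) (by positivity))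
      have e3 : (l * (q * 2 ^ J)) ^ A * (l * (1 / 2 ^ m)) = (((q : ℝ) * 2 ^ J) ^ A / 2 ^ m) * (l : ℝ) ^ (A + 1) := by
        rw [mul_pow]; ring
      rw [e3] at h9
      have h10 := le_of_mul_le_mul_right h9 (by positivity)
      rw [le_div_iff₀ (by positivity)] at h10
      exact h10
    have hApos : 0 < A := by omega
    have hA0 : (0 : ℝ) < A := by exact_mod_cast hApos
    have h10 : ((q : ℝ) * 2 ^ J) ^ A < (c * (2 : ℝ) ^ ((m : ℝ) / (2 * A)) * 2 ^ J) ^ A := by
      apply pow_lt_pow_left₀ _ (by positivity) (by omega)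
      apply mul_lt_mul_of_pos_right hcon (by positivity)
    have h11 : (c * (2 : ℝ) ^ ((m : ℝ) / (2 * A)) * 2 ^ J) ^ A ≤ c * 2 ^ m := by
      rw [mul_pow, mul_pow]
      have a1 : c ^ A ≤ c := by
        calc c ^ A ≤ c ^ 1 := pow_le_pow_of_le_one hcpos.le (min_le_right _ _) (by omega)
          _ = c := pow_one c
      have a2 : ((2 : ℝ) ^ ((m : ℝ) / (2 * A))) ^ A = (2 : ℝ) ^ ((m : ℝ) / 2) := by
        rw [← Real.rpow_natCast, ← Real.rpow_mul (by norm_num)]
        congr 1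
        field_simp
      have a3 : ((2 : ℝ) ^ J) ^ A ≤ (2 : ℝ) ^ ((m : ℝ) / 2) := by
        rw [← pow_mul, ← Real.rpow_natCast]
        apply Real.rpow_le_rpow_of_exponent_le (by norm_num)
        rw [le_div_iff₀ (by norm_num)]
        have a4 : J * A * 2 ≤ m := by
          calc J * A * 2 = J * (2 * A * 1) := by ring
            _ ≤ J * (16 * A * (Fintype.card ι + 1)) := by gcongr <;> omega
            _ ≤ m := Nat.div_mul_le_self m B
        exact_mod_cast a4
      rw [a2]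
      calc c ^ A * (2 : ℝ) ^ ((m : ℝ) / 2) * ((2 : ℝ) ^ J) ^ A ≤ c * (2 : ℝ) ^ ((m : ℝ) / 2) * (2 : ℝ) ^ ((m : ℝ) / 2) := by
            gcongr
        _ = c * 2 ^ m := by
            rw [mul_assoc, ← Real.rpow_add (by norm_num), add_halves, Real.rpow_natCast]
    linarith
  · have h12 : (q : ℝ) ≤ ((2 ^ m : ℕ) : ℝ) := by exact_mod_cast hqn
    push_cast at h12
    have h13 : (1 : ℝ) ≤ l := by exact_mod_cast hl
    calc (q : ℝ) ≤ 1 * 2 ^ m := by linarith
      _ ≤ l * 2 ^ (m + 2) := by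
          apply mul_le_mul h13 (pow_le_pow_right₀ (by norm_num) (by omega)) (by positivity) hl0.le

/-- irrational numbers have good approximations with large denominators -/
lemma large_den {ξ : ℝ} (hξ : Irrational ξ) (N : ℕ) : ∃ (q : ℕ) (a : ℤ), N < q ∧ IsCoprime a (q : ℤ) ∧
    |ξ - a / q| ≤ 1 / (q : ℝ) ^ 2 := by
  obtain ⟨d, hd, hmin⟩ : ∃ d : ℝ, 0 < d ∧ ∀ q ∈ Icc 1 N, d ≤ nn ((q : ℝ) * ξ) := by
    rcases (Icc 1 N).eq_empty_or_nonempty with h | h
    · exact ⟨1, one_pos, by rw [h]; simp⟩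
    · obtain ⟨q0, hq0, hmin⟩ := exists_min_image (Icc 1 N) (fun q : ℕ => nn ((q : ℝ) * ξ)) h
      refine ⟨nn ((q0 : ℝ) * ξ), ?_, hmin⟩
      rcases (nn_nonneg ((q0 : ℝ) * ξ)).lt_or_eq with h1 | h1
      · exact h1
      · exfalso
        unfold nn at h1
        rw [mem_Icc] at hq0
        have h2 : (q0 : ℝ) * ξ = round ((q0 : ℝ) * ξ) := by
          have := abs_eq_zero.1 h1.symm
          linarith
        have h3 : Irrational ((q0 : ℝ) * ξ) := hξ.natCast_mul (by omega)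
        exact h3 ⟨(round ((q0 : ℝ) * ξ) : ℤ), by push_cast; exact h2.symm⟩
  obtain ⟨n, hn⟩ := exists_nat_one_div_lt hd
  obtain ⟨q, a, hq1, hqn, hcop, h1, h2⟩ := exists_approx ξ (n := n + 1) (by omega)
  refine ⟨q, a, ?_, hcop, h2⟩
  by_contra hcon
  push Not at hcon
  have h3 := hmin q (by rw [mem_Icc]; exact ⟨hq1, hcon⟩)
  have hq0 : (0 : ℝ) < q := by exact_mod_cast hq1
  have h4 : nn ((q : ℝ) * ξ) ≤ 1 / (n + 1) := by
    refine (nn_le _ a).trans ?_
    have e2 : (q : ℝ) * ξ - a = q * (ξ - a / q) := by field_simp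
    rw [e2, abs_mul, abs_of_pos hq0]
    calc (q : ℝ) * |ξ - a / q| ≤ q * (1 / (((n + 1 : ℕ) + 1) * q)) := by gcongr
      _ = 1 / (((n + 1 : ℕ) : ℝ) + 1) := by field_simp
      _ ≤ 1 / (n + 1) := by
          push_cast
          apply one_div_le_one_div_of_le (by positivity)
          linarith
  linarith

/-- the arithmetic hypothesis at the scales `2^m ≈ q`, `q` a denominator -/
theorem key_of_den {ξ : ℝ} {q : ℕ} {a : ℤ} (hq : 1 ≤ q) (hcop : IsCoprime a (q : ℤ))
    (happ : |ξ - a / q| ≤ 1 / (q : ℝ) ^ 2) {l : ℕ} (hl : 1 ≤ l) (m : ℕ) (h1 : Nat.log 2 q ≤ m)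
    (h2 : 10 * m ≤ 11 * Nat.log 2 q) :
    Key 1 32 l (1 / (2 * l)) m (fun _ : Unit => ξ) := by
  intro h hh hlt b
  have hl0 : (0 : ℝ) < l := by exact_mod_cast hl
  set m0 := Nat.log 2 q with hm0
  set J := m / 32 with hJ
  have hq0 : (0 : ℝ) < q := by exact_mod_cast hq
  have hh0 : h () ≠ 0 := by
    intro h0
    apply hh
    ext i
    simpa using h0
  set g := h () with hg
  have hglt : |g| < 2 ^ J := hlt ()
  simp only [univ_unique, PUnit.default_eq_unit, sum_singleton]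
  rw [← hg]
  obtain ⟨q', a', hq1', hqn, hcop', h3, h4⟩ := exists_approx ((g : ℝ) * ξ + b / l) (n := l * 2 ^ (m + 2)) (by positivity)
  have hq0' : (0 : ℝ) < q' := by exact_mod_cast hq1'
  refine ⟨q', a', hq1', hcop', h4, ?_, by exact_mod_cast hqn⟩
  have hqlow : 2 ^ m0 ≤ q := Nat.pow_log_le_self 2 (by omega)
  have hqup : q < 2 ^ (m0 + 1) := Nat.lt_pow_succ_log_self (by norm_num) q
  have hqn' : (q : ℝ) * 2 ≤ 2 ^ (m + 2) := by
    have : q * 2 ≤ 2 ^ (m + 2) := by
      calc q * 2 ≤ 2 ^ (m0 + 1) * 2 := by omega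
        _ = 2 ^ (m0 + 2) := by ring
        _ ≤ 2 ^ (m + 2) := Nat.pow_le_pow_right (by norm_num) (by omega)
    exact_mod_cast this
  -- the lower bound for `q'`
  have hgabs : |(g : ℝ)| = (|g| : ℤ) := by push_cast; rfl
  have hg1 : (1 : ℤ) ≤ |g| := Int.one_le_abs hh0
  have hmain : (q : ℤ) ≤ 2 * |g| * l * q' := by
    by_contra hcon
    push Not at hcon
    have h5 : |(g : ℝ) * (a / q) + b / l - a' / q'| ≤ |(g : ℝ)| * (1 / (q : ℝ) ^ 2) + 1 / (((l * 2 ^ (m + 2) : ℕ) + 1) * q') := by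
      have e : (g : ℝ) * (a / q) + b / l - a' / q' = -((g : ℝ) * (ξ - a / q)) + (g * ξ + b / l - a' / q') := by ring
      rw [e]
      refine (abs_add_le _ _).trans ?_
      rw [abs_neg, abs_mul]
      gcongr
    have h6 : |((g * a * l * q' + b * q * q' - a' * q * l : ℤ) : ℝ)| < 1 := by
      have e : ((g * a * l * q' + b * q * q' - a' * q * l : ℤ) : ℝ) = ((g : ℝ) * (a / q) + b / l - a' / q') * (l * (q * q')) := by
        push_cast; field_simp
      rw [e, abs_mul, abs_of_pos (mul_pos hl0 (mul_pos hq0 hq0'))]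
      calc |(g : ℝ) * (a / q) + b / l - a' / q'| * (l * (q * q')) ≤
            (|(g : ℝ)| * (1 / (q : ℝ) ^ 2) + 1 / (((l * 2 ^ (m + 2) : ℕ) + 1) * q')) * (l * (q * q')) := by gcongr
        _ = |(g : ℝ)| * l * q' / q + l * q / (((l * 2 ^ (m + 2) : ℕ) : ℝ) + 1) := by field_simp
        _ < 1 / 2 + 1 / 2 := by
            apply add_lt_add
            · rw [div_lt_div_iff₀ hq0 (by norm_num), hgabs]
              have : 2 * ((|g| : ℤ) : ℝ) * l * q' < q := by exact_mod_cast hcon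
              linarith
            · rw [div_lt_div_iff₀ (by positivity) (by norm_num)]
              push_cast
              have : (l : ℝ) * (q * 2) ≤ l * 2 ^ (m + 2) := by gcongr
              linarith
        _ = 1 := by norm_num
    have h7 : g * a * l * q' + b * q * q' - a' * q * l = 0 := by
      have : |g * a * l * (q' : ℤ) + b * q * q' - a' * q * l| < 1 := by exact_mod_cast h6
      exact Int.abs_lt_one_iff.1 this
    have h8 : (q : ℤ) ∣ g * l * q' := by
      have h9 : (q : ℤ) ∣ a * (g * l * q') := ⟨a' * l - b * q', by linear_combination h7⟩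
      exact (hcop.symm).dvd_of_dvd_mul_left h9
    have h10 : (q : ℤ) ≤ |g * l * q'| := by
      apply Int.le_of_dvd
      · rw [abs_pos]
        exact mul_ne_zero (mul_ne_zero hh0 (by exact_mod_cast (by omega : l ≠ 0))) (by exact_mod_cast (by omega : q' ≠ 0))
      · rwa [dvd_abs]
    rw [abs_mul, abs_mul] at h10
    have h11 : |(q' : ℤ)| = q' := abs_of_nonneg (by positivity)
    have h12 : |(l : ℤ)| = l := abs_of_nonneg (by positivity)
    rw [h11, h12] at h10
    have : 0 < |g| * (l : ℤ) * (q' : ℤ) := mul_pos (mul_pos (by omega) (by exact_mod_cast hl)) (by exact_mod_cast hq1')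
    nlinarith
  have h12 : (q : ℝ) ≤ 2 * 2 ^ J * l * q' := by
    have h13 : ((|g| : ℤ) : ℝ) ≤ 2 ^ J := by
      have : ((|g| : ℤ) : ℝ) ≤ ((2 ^ J : ℤ) : ℝ) := by exact_mod_cast hglt.le
      push_cast at this
      push_cast
      exact this
    have h14 : (q : ℝ) ≤ 2 * ((|g| : ℤ) : ℝ) * l * q' := by exact_mod_cast hmain
    refine h14.trans ?_
    gcongr
  have h15 : (2 : ℝ) ^ m0 ≤ q := by exact_mod_cast hqlow
  have h16 : (2 : ℝ) ^ ((m : ℝ) / (2 * ((1 : ℕ) : ℝ))) * 2 ^ J ≤ 2 ^ m0 := by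
    rw [← Real.rpow_natCast 2 J, ← Real.rpow_natCast 2 m0, ← Real.rpow_add (by norm_num)]
    apply Real.rpow_le_rpow_of_exponent_le (by norm_num)
    have a1 : (J : ℝ) * 32 ≤ m := by exact_mod_cast Nat.div_mul_le_self m 32
    have a2 : 10 * (m : ℝ) ≤ 11 * m0 := by exact_mod_cast h2
    have a3 : (0 : ℝ) ≤ m := Nat.cast_nonneg m
    push_cast
    linarith
  have h17 : (0 : ℝ) < 2 ^ J := by positivity
  have h18 : (2 : ℝ) ^ ((m : ℝ) / (2 * ((1 : ℕ) : ℝ))) * 2 ^ J ≤ (2 * l * q') * 2 ^ J := by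
    calc _ ≤ (2 : ℝ) ^ m0 := h16
      _ ≤ q := h15
      _ ≤ 2 * 2 ^ J * l * q' := h12
      _ = _ := by ring
  have h19 := le_of_mul_le_mul_right h18 h17
  calc 1 / (2 * (l : ℝ)) * (2 : ℝ) ^ ((m : ℝ) / (2 * ((1 : ℕ) : ℝ))) ≤ 1 / (2 * (l : ℝ)) * (2 * l * q') := by gcongr
    _ = q' := by field_simp

end Pool.Agent.V7H17.LP
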