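import Mathlib
import Pool.Agent.V7H17.LP.Dio

/-! Littlewood's conjecture along the primes on every fibre. -/

set_option autoImplicit false

namespace Pool.Agent.V7H17.LP
open MeasureTheory Finset Filter
open Pool.Agent.W301.SS

/-- the rate `ε / ((n + 1) log (n + 2))` -/
noncomputable def ph (ε : ℝ) (n : ℕ) : ℝ := ε / (((n : ℝ) + 1) * Real.log (n + 2))

lemma log_two_le (n : ℕ) : (1 : ℝ) / 2 ≤ Real.log (n + 2) := by
  have h1 := Real.log_two_gt_d9
  have h2 : Real.log 2 ≤ Real.log (n + 2) := by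
    apply Real.log_le_log (by norm_num)
    have : (0 : ℝ) ≤ n := Nat.cast_nonneg n
    linarith
  linarith

lemma ph_nonneg {ε : ℝ} (hε : 0 ≤ ε) (n : ℕ) : 0 ≤ ph ε n := by
  unfold ph
  have := log_two_le n
  positivity

lemma ph_anti {ε : ℝ} (hε : 0 ≤ ε) : Antitone (ph ε) := by
  intro a b hab
  unfold ph
  have h1 := log_two_le a
  have hab' : (a : ℝ) ≤ b := by exact_mod_cast hab
  have ha : (0 : ℝ) ≤ a := Nat.cast_nonneg a
  have h2 : Real.log (a + 2) ≤ Real.log (b + 2) := Real.log_le_log (by linarith) (by linarith)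
  apply div_le_div_of_nonneg_left hε
  · have : 0 < Real.log ((a : ℝ) + 2) := by linarith
    positivity
  · apply mul_le_mul (by linarith) h2 (by linarith) (by linarith)

lemma ph_sqrt {ε : ℝ} (hε1 : ε ≤ 1 / 2) (n : ℕ) : ph ε n * √n ≤ 1 := by
  unfold ph
  have h1 := log_two_le n
  have hn : (0 : ℝ) ≤ n := Nat.cast_nonneg n
  have h2 : √(n : ℝ) ≤ n + 1 := by
    rw [Real.sqrt_le_left (by linarith)]
    nlinarith
  rw [div_mul_eq_mul_div, div_le_one (by positivity)]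
  have h3 : 0 ≤ √(n : ℝ) := Real.sqrt_nonneg _
  calc ε * √(n : ℝ) ≤ 1 / 2 * (n + 1) := mul_le_mul hε1 h2 h3 (by norm_num)
    _ = (n + 1) * (1 / 2) := by ring
    _ ≤ (n + 1) * Real.log (n + 2) := by gcongr

lemma ph_lower {ε : ℝ} (hε : 0 ≤ ε) (m : ℕ) (hm : 1 ≤ m) : ε / (48 * 4 ^ m * m) ≤ ph ε (4 ^ (m + 1)) := by
  unfold ph
  have hm' : (1 : ℝ) ≤ m := by exact_mod_cast hm
  have h4 : (1 : ℝ) ≤ 4 ^ m := one_le_pow₀ (by norm_num)
  push_cast
  have e : (4 : ℝ) ^ (m + 1) = 4 * 4 ^ m := by ring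
  apply div_le_div_of_nonneg_left hε
  · have : (1 : ℝ) < 4 ^ (m + 1) + 2 := by rw [e]; linarith
    have := Real.log_pos this
    positivity
  · have h5 : Real.log ((4 : ℝ) ^ (m + 1) + 2) ≤ 6 * m := by
      calc Real.log ((4 : ℝ) ^ (m + 1) + 2) ≤ Real.log ((4 : ℝ) ^ (m + 2)) := by
            apply Real.log_le_log (by positivity)
            have e2 : (4 : ℝ) ^ (m + 2) = 4 * 4 ^ (m + 1) := by ring
            rw [e2, e]; linarith
        _ = (m + 2) * Real.log 4 := by rw [Real.log_pow]; push_cast; ring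
        _ ≤ (m + 2) * 2 := mul_le_mul_of_nonneg_left log4 (by positivity)
        _ ≤ 6 * m := by linarith
    have h6 : (4 : ℝ) ^ (m + 1) + 1 ≤ 8 * 4 ^ m := by rw [e]; linarith
    calc ((4 : ℝ) ^ (m + 1) + 1) * Real.log ((4 : ℝ) ^ (m + 1) + 2) ≤ (8 * 4 ^ m) * (6 * m) := by
          apply mul_le_mul h6 h5 _ (by positivity)
          apply Real.log_nonneg
          rw [e]; linarith
      _ = _ := by ring

/-- divergence of the block sums for irrational numbers -/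
theorem irr_div {α : ℝ} (hα : Irrational α) (δ : ℝ) {l a : ℕ} (hl : 1 ≤ l) (ha : a.Coprime l) {ε : ℝ} (hε : 0 < ε) :
    ¬ Summable fun m : ℕ => ∑ n ∈ Ioc (4 ^ m) (4 ^ (m + 1)),
      Psi 32 l a (fun _ : Unit => α) (fun _ => δ) (ph ε) n := by
  intro hs
  have hφ : (0 : ℝ) < l.totient := by exact_mod_cast Nat.totient_pos.2 hl
  have hl0 : (0 : ℝ) < l := by exact_mod_cast hl
  set S : ℕ → ℝ := fun m => ∑ n ∈ Ioc (4 ^ m) (4 ^ (m + 1)),
      Psi 32 l a (fun _ : Unit => α) (fun _ => δ) (ph ε) n with hS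
  have hS0 : ∀ m, 0 ≤ S m := fun m => sum_nonneg fun n _ => Psi_nonneg _ _ _ _ _ _ (ph_nonneg hε.le) n
  set c : ℝ := ε / (48 * 20 * 128 * (l.totient : ℝ)) with hc
  have hc0 : 0 < c := by positivity
  have hblock := block_main (ι := Unit) 1 le_rfl (1 / (2 * (l : ℝ))) (by positivity) hl ha
  have h32 : 16 * 1 * (Fintype.card Unit + 1) = 32 := rfl
  rw [h32, Fintype.card_unit] at hblock
  -- the tails of the series are small
  have htail := tendsto_sum_nat_add S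
  have h1 : ∀ᶠ N : ℕ in atTop, ∑' m, S (m + N) < c / 11 := htail.eventually (gt_mem_nhds (by positivity))
  obtain ⟨N1, hN1⟩ := eventually_atTop.1 h1
  obtain ⟨N2, hN2⟩ := eventually_atTop.1 hblock
  set N := max (max N1 N2) 64 with hN
  obtain ⟨q, a', hqN, hcop, happ⟩ := large_den hα (2 ^ N)
  set m0 := Nat.log 2 q with hm0
  have hm0N : N ≤ m0 := by
    rw [hm0]
    exact Nat.le_log_of_pow_le (by norm_num) hqN.le
  have hN64 : 64 ≤ N := le_max_right _ _
  have hNN1 : N1 ≤ N := (le_max_left _ _).trans (le_max_left _ _)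
  have hNN2 : N2 ≤ N := (le_max_right _ _).trans (le_max_left _ _)
  have hq1 : 1 ≤ q := by have : 0 < 2 ^ N := by positivity
                         omega
  -- the lower bound for one block
  have hone : ∀ m, m0 ≤ m → 10 * m ≤ 11 * m0 → c / m ≤ S m := by
    intro m hm1 hm2
    have hm1' : 64 ≤ m := by omega
    have hmr : (64 : ℝ) ≤ m := by exact_mod_cast hm1'
    have hkey := key_of_den hq1 hcop happ hl m hm1 hm2
    have h3 := hN2 m (by omega) (fun _ => α) (fun _ => δ) hkey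
    have h4 := block_sum_ge 32 l a (fun _ : Unit => α) (fun _ => δ) (ph ε) m (ph_nonneg hε.le) (ph_anti hε.le)
    rw [Fintype.card_unit] at h4
    refine le_trans ?_ h4
    have h5 := ph_lower hε.le m (by omega)
    have h6 : (m : ℝ) / 64 ≤ ((m / 32 : ℕ) : ℝ) := by
      have h7 : m ≤ (m / 32) * 64 := by omega
      have h8 : (m : ℝ) ≤ ((m / 32 : ℕ) : ℝ) * 64 := by exact_mod_cast h7
      rw [div_le_iff₀ (by norm_num)]
      exact h8
    have h4m : (0 : ℝ) < 4 ^ m := by positivity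
    have hm0' : (0 : ℝ) < m := by linarith
    calc c / m = (ε / (48 * 4 ^ m * m)) / (2 * (m + m) * 5 ^ 1) * (1 / (2 * (l.totient : ℝ)) * (m / 64) ^ 1 * 4 ^ m) := by
          rw [hc]; field_simp; ring
      _ ≤ (ε / (48 * 4 ^ m * m)) / (2 * (m + 1) * 5 ^ 1) * (1 / (2 * (l.totient : ℝ)) * (m / 64) ^ 1 * 4 ^ m) := by
          gcongr
          linarith
      _ ≤ ph ε (4 ^ (m + 1)) / (2 * (m + 1) * 5 ^ 1) * (1 / (2 * (l.totient : ℝ)) * (m / 64) ^ 1 * 4 ^ m) := by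
          gcongr
      _ ≤ ph ε (4 ^ (m + 1)) / (2 * (m + 1) * 5 ^ 1) * (1 / (2 * (l.totient : ℝ)) * ((m / 32 : ℕ) : ℝ) ^ 1 * 4 ^ m) := by
          have := ph_nonneg hε.le (4 ^ (m + 1))
          gcongr
      _ ≤ _ := by
          have := ph_nonneg hε.le (4 ^ (m + 1))
          apply mul_le_mul_of_nonneg_left h3 (by positivity)
  have hm0r : (64 : ℝ) ≤ m0 := by exact_mod_cast hN64.trans hm0N
  have hsum : c / 11 ≤ ∑ j ∈ range (m0 / 10 + 1), S (j + m0) := by
    calc c / 11 = (m0 / 10 : ℝ) * (c / (11 / 10 * m0)) := by field_simp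
      _ ≤ ((m0 / 10 + 1 : ℕ) : ℝ) * (c / (11 / 10 * m0)) := by
          apply mul_le_mul_of_nonneg_right _ (by positivity)
          have h7 : m0 ≤ (m0 / 10 + 1) * 10 := by omega
          have h8 : (m0 : ℝ) ≤ ((m0 / 10 + 1 : ℕ) : ℝ) * 10 := by exact_mod_cast h7
          linarith
      _ = ∑ _j ∈ range (m0 / 10 + 1), c / (11 / 10 * m0) := by rw [sum_const, card_range, nsmul_eq_mul]
      _ ≤ _ := by
          apply sum_le_sum
          intro j hj
          rw [mem_range] at hj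
          refine le_trans ?_ (hone (j + m0) (by omega) (by omega))
          apply div_le_div_of_nonneg_left hc0.le
          · push_cast; positivity
          · have : 10 * (j + m0) ≤ 11 * m0 := by omega
            have : 10 * ((j + m0 : ℕ) : ℝ) ≤ 11 * m0 := by exact_mod_cast this
            linarith
  have hle : ∑ j ∈ range (m0 / 10 + 1), S (j + m0) ≤ ∑' m, S (m + m0) :=
    ((summable_nat_add_iff m0).2 hs).sum_le_tsum _ fun m _ => hS0 _
  have := hN1 m0 (by omega)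
  linarith

/-- **Irrational fibres.** -/
theorem irr_fibre {α : ℝ} (hα : Irrational α) (δ : ℝ) (γ : ℕ → ℝ) : ∀ᵐ β : ℝ, ∀ l a : ℕ, 1 ≤ l → a.Coprime l →
    ∀ ε : ℝ, 0 < ε → ∃ᶠ p : ℕ in atTop, p.Prime ∧ p ≡ a [MOD l] ∧
      (p : ℝ) * Real.log p * nn ((p : ℝ) * α - δ) * nn ((p : ℝ) * β - γ p) < ε := by
  rw [ae_all_iff]; intro l
  rw [ae_all_iff]; intro a
  by_cases hl : 1 ≤ l
  swap
  · exact Eventually.of_forall fun β h => absurd h hl
  by_cases ha : a.Coprime l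
  swap
  · exact Eventually.of_forall fun β _ h => absurd h ha
  have hj : ∀ j : ℕ, ∀ᵐ β : ℝ, ∃ᶠ p : ℕ in atTop, p.Prime ∧ p ≡ a [MOD l] ∧
      (∏ _i : Unit, nn ((p : ℝ) * α - δ)) * nn ((p : ℝ) * β - γ p) < ph (1 / ((j : ℝ) + 2)) p := by
    intro j
    have hε : (0 : ℝ) < 1 / ((j : ℝ) + 2) := by positivity
    have hε1 : 1 / ((j : ℝ) + 2) ≤ 1 / 2 := by
      apply one_div_le_one_div_of_le (by norm_num)
      have : (0 : ℝ) ≤ j := Nat.cast_nonneg j
      linarith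
    exact ae_of_blocks (ι := Unit) 32 l a (fun _ => α) (fun _ => δ) (ph (1 / ((j : ℝ) + 2))) (by norm_num)
      (ph_nonneg hε.le) (ph_sqrt hε1) (irr_div hα δ hl ha hε) γ
  filter_upwards [ae_all_iff.2 hj] with β hβ _ _ ε hε
  obtain ⟨j, hj⟩ := exists_nat_one_div_lt hε
  refine (hβ j).mono ?_
  rintro p ⟨h1, h2, h3⟩
  refine ⟨h1, h2, ?_⟩
  rw [prod_const, card_univ, Fintype.card_unit, pow_one] at h3
  have hp2 : (2 : ℝ) ≤ p := by exact_mod_cast h1.two_le
  have hlog : 0 < Real.log p := Real.log_pos (by linarith)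
  have hlog2 : Real.log p ≤ Real.log (p + 2) := Real.log_le_log (by linarith) (by linarith)
  have hlog' : 0 < Real.log ((p : ℝ) + 2) := lt_of_lt_of_le hlog hlog2
  unfold ph at h3
  rw [lt_div_iff₀ (by positivity)] at h3
  have hn := nn_nonneg ((p : ℝ) * α - δ)
  have hn' := nn_nonneg ((p : ℝ) * β - γ p)
  calc (p : ℝ) * Real.log p * nn ((p : ℝ) * α - δ) * nn ((p : ℝ) * β - γ p) =
        nn ((p : ℝ) * α - δ) * nn ((p : ℝ) * β - γ p) * (p * Real.log p) := by ring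
    _ ≤ nn ((p : ℝ) * α - δ) * nn ((p : ℝ) * β - γ p) * ((p + 1) * Real.log (p + 2)) := by gcongr; linarith
    _ < 1 / ((j : ℝ) + 2) := h3
    _ ≤ 1 / ((j : ℝ) + 1) := by
        apply one_div_le_one_div_of_le (by positivity); linarith
    _ < ε := hj

/-- the truncated function -/
noncomputable def tr (ψ : ℕ → ℝ) (n : ℕ) : ℝ := min (ψ n) (1 / √((n : ℝ) + 1))

lemma tr_nonneg {ψ : ℕ → ℝ} (h0 : ∀ n, 0 ≤ ψ n) (n : ℕ) : 0 ≤ tr ψ n := le_min (h0 n) (by positivity)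

lemma tr_anti {ψ : ℕ → ℝ} (h : Antitone ψ) : Antitone (tr ψ) := by
  intro a b hab
  unfold tr
  apply min_le_min (h hab)
  have : (a : ℝ) ≤ b := by exact_mod_cast hab
  gcongr

lemma tr_sqrt {ψ : ℕ → ℝ} (n : ℕ) : tr ψ n * √n ≤ 1 := by
  have h1 : tr ψ n ≤ 1 / √((n : ℝ) + 1) := min_le_right _ _
  have h2 : 0 < √((n : ℝ) + 1) := Real.sqrt_pos.2 (by positivity)
  calc tr ψ n * √n ≤ 1 / √((n : ℝ) + 1) * √((n : ℝ) + 1) := by
        apply mul_le_mul h1 (Real.sqrt_le_sqrt (by linarith)) (Real.sqrt_nonneg _) (by positivity)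
    _ = 1 := by field_simp

/-- condensation -/
lemma condense {ψ : ℕ → ℝ} (h0 : ∀ n, 0 ≤ ψ n) (hanti : Antitone ψ) (r : ℕ)
    (hs : Summable fun m : ℕ => tr ψ (4 ^ (m + 1)) * (m : ℝ) ^ r * 4 ^ m) :
    Summable fun n : ℕ => ψ n * Real.log n ^ r := by
  -- eventually the truncation does nothing
  have ht := hs.tendsto_atTop_zero
  have h1 : ∀ᶠ m : ℕ in atTop, tr ψ (4 ^ (m + 1)) * (m : ℝ) ^ r * 4 ^ m < 1 / 4 := ht.eventually (gt_mem_nhds (by norm_num))
  have h2 : ∀ᶠ m : ℕ in atTop, tr ψ (4 ^ (m + 1)) = ψ (4 ^ (m + 1)) := by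
    filter_upwards [h1, eventually_ge_atTop 1] with m hm hm1
    unfold tr at hm ⊢
    apply min_eq_left
    by_contra hcon
    push Not at hcon
    rw [min_eq_right hcon.le] at hm
    have hmr : (1 : ℝ) ≤ (m : ℝ) ^ r := one_le_pow₀ (by exact_mod_cast hm1)
    have h4 : (1 : ℝ) ≤ 4 ^ m := one_le_pow₀ (by norm_num)
    have h5 : √(((4 ^ (m + 1) : ℕ) : ℝ) + 1) ≤ 4 * 2 ^ m := by
      rw [Real.sqrt_le_left (by positivity)]
      push_cast
      have e : (4 * (2 : ℝ) ^ m) ^ 2 = 16 * 4 ^ m := by rw [mul_pow, ← pow_mul, mul_comm m 2, pow_mul]; norm_num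
      rw [e, pow_succ]
      linarith
    have h6 : 1 / (4 * (2 : ℝ) ^ m) ≤ 1 / √(((4 ^ (m + 1) : ℕ) : ℝ) + 1) :=
      one_div_le_one_div_of_le (Real.sqrt_pos.2 (by positivity)) h5
    have h7 : (1 : ℝ) / 4 ≤ 1 / (4 * 2 ^ m) * 1 * 4 ^ m := by
      have e4 : (4 : ℝ) ^ m = 2 ^ m * 2 ^ m := by rw [← mul_pow]; norm_num
      rw [e4, mul_one]
      have h8 : (1 : ℝ) ≤ 2 ^ m := one_le_pow₀ (by norm_num)
      have : 1 / (4 * (2 : ℝ) ^ m) * (2 ^ m * 2 ^ m) = 1 / 4 * 2 ^ m := by field_simp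
      rw [this]
      linarith
    have h9 : 1 / (4 * (2 : ℝ) ^ m) * 1 * 4 ^ m ≤ 1 / √(((4 ^ (m + 1) : ℕ) : ℝ) + 1) * (m : ℝ) ^ r * 4 ^ m := by gcongr
    linarith
  have hs2 : Summable fun m : ℕ => ψ (4 ^ (m + 1)) * (m : ℝ) ^ r * 4 ^ m := by
    apply hs.congr_atTop
    filter_upwards [h2] with m hm
    rw [hm]
  have hf0 : ∀ n : ℕ, 0 ≤ ψ n * Real.log n ^ r := fun n =>
    mul_nonneg (h0 n) (pow_nonneg (Real.log_natCast_nonneg n) _)
  apply summable_of_blocks hf0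
  rw [← summable_nat_add_iff 1]
  have hs3 : Summable fun m : ℕ => (12 * 6 ^ r) * (ψ (4 ^ (m + 1)) * (m : ℝ) ^ r * 4 ^ m) := hs2.mul_left _
  apply Summable.of_norm_bounded_eventually_nat hs3
  filter_upwards [eventually_ge_atTop 1] with m hm
  rw [Real.norm_eq_abs, abs_of_nonneg (sum_nonneg fun n _ => hf0 n)]
  have hm' : (1 : ℝ) ≤ m := by exact_mod_cast hm
  calc ∑ n ∈ Ioc (4 ^ (m + 1)) (4 ^ (m + 1 + 1)), ψ n * Real.log n ^ r ≤
        ∑ _n ∈ Ioc (4 ^ (m + 1)) (4 ^ (m + 1 + 1)), ψ (4 ^ (m + 1)) * (6 * m) ^ r := by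
        apply sum_le_sum
        intro n hn
        rw [mem_Ioc] at hn
        have hnpos : (0 : ℝ) < n := by
          have : 0 < n := by omega
          exact_mod_cast this
        apply mul_le_mul (hanti hn.1.le) _ (pow_nonneg (Real.log_natCast_nonneg n) _) (h0 _)
        apply pow_le_pow_left₀ (Real.log_natCast_nonneg n)
        calc Real.log n ≤ Real.log ((4 : ℝ) ^ (m + 1 + 1)) := by
              apply Real.log_le_log hnpos
              exact_mod_cast hn.2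
          _ = (m + 2) * Real.log 4 := by rw [Real.log_pow]; push_cast; ring
          _ ≤ (m + 2) * 2 := mul_le_mul_of_nonneg_left log4 (by positivity)
          _ ≤ 6 * m := by linarith
    _ = (12 * 6 ^ r) * (ψ (4 ^ (m + 1)) * (m : ℝ) ^ r * 4 ^ m) := by
        rw [sum_const, Nat.card_Ioc, nsmul_eq_mul, mul_pow]
        have : ((4 ^ (m + 1 + 1) - 4 ^ (m + 1) : ℕ) : ℝ) = 12 * 4 ^ m := by
          rw [Nat.cast_sub (Nat.pow_le_pow_right (by norm_num) (by omega))]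
          push_cast
          ring
        rw [this]
        ring

/-- **Diophantine fibres.** -/
theorem dio_fibre {k : ℕ} (hk : 1 ≤ k) {α : Fin k → ℝ} (hα : Dio α) (δ : Fin k → ℝ) {ψ : ℕ → ℝ}
    (h0 : ∀ n, 0 ≤ ψ n) (hanti : Antitone ψ) (hdiv : ¬ Summable fun n : ℕ => ψ n * Real.log n ^ (k - 1))
    (γ : ℕ → ℝ) : ∀ᵐ β : ℝ, ∀ l a : ℕ, 1 ≤ l → a.Coprime l → ∃ᶠ p : ℕ in atTop, p.Prime ∧ p ≡ a [MOD l] ∧
      (∏ i, nn ((p : ℝ) * α i - δ i)) * nn ((p : ℝ) * β - γ p) < ψ p := by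
  rw [ae_all_iff]; intro l
  rw [ae_all_iff]; intro a
  by_cases hl : 1 ≤ l
  swap
  · exact Eventually.of_forall fun β h => absurd h hl
  by_cases ha : a.Coprime l
  swap
  · exact Eventually.of_forall fun β _ h => absurd h ha
  have hφ : (0 : ℝ) < l.totient := by exact_mod_cast Nat.totient_pos.2 hl
  obtain ⟨A, c, hA, hc, hkey⟩ := key_of_dio hα hl
  set B := 16 * A * (Fintype.card (Fin k) + 1) with hB
  have hBk : Fintype.card (Fin k) ≤ B := by
    rw [hB]; nlinarith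
  have hBpos : 0 < B := by positivity
  have h1 := ae_of_blocks B l a α δ (tr ψ) hBk (tr_nonneg h0) tr_sqrt (by
    intro hs
    apply hdiv
    apply condense h0 hanti
    set d : ℝ := 1 / (8 * 5 ^ k * (l.totient : ℝ) * (2 * B) ^ k) with hd
    have hd0 : 0 < d := by positivity
    have hs' : Summable fun m : ℕ => d⁻¹ * ∑ n ∈ Ioc (4 ^ m) (4 ^ (m + 1)), Psi B l a α δ (tr ψ) n := hs.mul_left _
    apply Summable.of_norm_bounded_eventually_nat hs'
    filter_upwards [block_main (ι := Fin k) A hA c hc hl ha, eventually_ge_atTop B] with m hm hmB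
    have h2 := hm α δ (hkey m)
    have h3 := block_sum_ge B l a α δ (tr ψ) m (tr_nonneg h0) (tr_anti hanti)
    rw [← hB] at h2
    rw [Fintype.card_fin] at h2 h3
    have htr := tr_nonneg h0 (4 ^ (m + 1))
    rw [Real.norm_eq_abs, abs_of_nonneg (by positivity), ← div_eq_inv_mul, le_div_iff₀ hd0]
    refine le_trans ?_ h3
    have hm1 : 1 ≤ m := by omega
    have hm' : (1 : ℝ) ≤ m := by exact_mod_cast hm1
    have h4 : (m : ℝ) / (2 * B) ≤ ((m / B : ℕ) : ℝ) := by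
      rw [div_le_iff₀ (by positivity)]
      have h5 : m < (m / B + 1) * B := by
        have := Nat.lt_div_mul_add hBpos (a := m)
        linarith [this, add_mul (m / B) 1 B]
      have h6 : 1 ≤ m / B := (Nat.one_le_div_iff hBpos).2 hmB
      have h7 : m ≤ (m / B) * (2 * B) := by nlinarith
      exact_mod_cast h7
    calc tr ψ (4 ^ (m + 1)) * (m : ℝ) ^ (k - 1) * 4 ^ m * d =
          tr ψ (4 ^ (m + 1)) / (2 * (m + m) * 5 ^ k) * (1 / (2 * (l.totient : ℝ)) * (m / (2 * B)) ^ k * 4 ^ m) := by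
          have e : (m : ℝ) ^ k = (m : ℝ) ^ (k - 1) * m := by
            rw [← pow_succ]; congr 1; omega
          rw [hd, div_pow, e]
          field_simp
          ring
      _ ≤ tr ψ (4 ^ (m + 1)) / (2 * (m + 1) * 5 ^ k) * (1 / (2 * (l.totient : ℝ)) * (m / (2 * B)) ^ k * 4 ^ m) := by
          gcongr
      _ ≤ tr ψ (4 ^ (m + 1)) / (2 * (m + 1) * 5 ^ k) * (1 / (2 * (l.totient : ℝ)) * ((m / B : ℕ) : ℝ) ^ k * 4 ^ m) := by
          gcongr
      _ ≤ _ := mul_le_mul_of_nonneg_left h2 (by positivity)) γ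
  filter_upwards [h1] with β hβ _ _
  refine hβ.mono ?_
  rintro p ⟨h2, h3, h4⟩
  exact ⟨h2, h3, lt_of_lt_of_le h4 (min_le_left _ _)⟩

end Pool.Agent.V7H17.LP
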