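import Mathlib
import Pool.Agent.V7H17.LP.Final

/-! The convergence case for almost every pair. -/

set_option autoImplicit false

namespace Pool.Agent.V7H17.LP
open MeasureTheory Finset Filter
open Pool.Agent.W301.SS
open scoped ENNReal

/-- measure of the points of a unit interval which are approximated -/
lemma vol_le {p : ℕ} (hp : 1 ≤ p) (t δ a : ℝ) (ha : 0 ≤ a) :
    volume (Set.Ico t (t + 1) ∩ {x : ℝ | nn ((p : ℝ) * x - δ) ≤ a}) ≤ ENNReal.ofReal (8 * a) := by
  rcases le_or_gt 1 (8 * a) with h8 | h8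
  · calc volume (Set.Ico t (t + 1) ∩ {x : ℝ | nn ((p : ℝ) * x - δ) ≤ a}) ≤ volume (Set.Ico t (t + 1)) :=
          measure_mono Set.inter_subset_left
      _ = ENNReal.ofReal 1 := by rw [Real.volume_Ico]; congr 1; ring
      _ ≤ _ := ENNReal.ofReal_le_ofReal h8
  have hp0 : (0 : ℝ) < p := by exact_mod_cast hp
  have hp1 : (1 : ℝ) ≤ p := by exact_mod_cast hp
  set u : ℤ := ⌊(p : ℝ) * t - δ⌋ with hu
  have hsub : Set.Ico t (t + 1) ∩ {x : ℝ | nn ((p : ℝ) * x - δ) ≤ a} ⊆
      ⋃ i ∈ range (p + 3), Set.Icc ((δ + (u - 1 + i) - a) / p) ((δ + (u - 1 + i) + a) / p) := by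
    rintro x ⟨⟨hx1, hx2⟩, hx3⟩
    have hx3' : |(p : ℝ) * x - δ - round ((p : ℝ) * x - δ)| ≤ a := hx3
    set n := round ((p : ℝ) * x - δ) with hn
    have h1 := abs_le.1 hx3'
    have h2 : (p : ℝ) * t ≤ p * x := by gcongr
    have h3 : (p : ℝ) * x < p * t + p := by nlinarith
    have h4 : (u : ℝ) ≤ (p : ℝ) * t - δ := Int.floor_le _
    have h5 : (p : ℝ) * t - δ < u + 1 := Int.lt_floor_add_one _
    have h6 : (u : ℝ) - 1 < n := by linarith [h1.2]
    have h7 : (n : ℝ) < u + p + 2 := by linarith [h1.1]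
    have h6' : u - 1 < n := by exact_mod_cast h6
    have h7' : n < u + p + 2 := by exact_mod_cast h7
    rw [Set.mem_iUnion₂]
    refine ⟨(n - (u - 1)).toNat, ?_, ?_⟩
    · rw [mem_range]; omega
    · have h8 : (((n - (u - 1)).toNat : ℕ) : ℝ) = n - (u - 1) := by
        have : (((n - (u - 1)).toNat : ℕ) : ℤ) = n - (u - 1) := Int.toNat_of_nonneg (by omega)
        have h9 : ((((n - (u - 1)).toNat : ℕ) : ℤ) : ℝ) = ((n - (u - 1) : ℤ) : ℝ) := by rw [this]
        push_cast at h9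
        exact h9
      rw [h8]
      constructor
      · rw [div_le_iff₀ hp0]; linarith [h1.1]
      · rw [le_div_iff₀ hp0]; linarith [h1.2]
  calc volume (Set.Ico t (t + 1) ∩ {x : ℝ | nn ((p : ℝ) * x - δ) ≤ a}) ≤
        volume (⋃ i ∈ range (p + 3), Set.Icc ((δ + (u - 1 + i) - a) / p) ((δ + (u - 1 + i) + a) / p)) := measure_mono hsub
    _ ≤ ∑ i ∈ range (p + 3), volume (Set.Icc ((δ + (u - 1 + i) - a) / p) ((δ + (u - 1 + i) + a) / p)) :=
        measure_biUnion_finset_le _ _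
    _ = ∑ _i ∈ range (p + 3), ENNReal.ofReal (2 * a / p) := by
        apply sum_congr rfl
        intro i _
        rw [Real.volume_Icc]
        congr 1
        ring
    _ = ENNReal.ofReal ((p + 3) * (2 * a / p)) := by
        rw [sum_const, card_range, nsmul_eq_mul, ENNReal.ofReal_mul (by positivity)]
        congr 1
        push_cast
        rw [ENNReal.ofReal_add (by positivity) (by norm_num), ENNReal.ofReal_natCast]
        norm_num
    _ ≤ ENNReal.ofReal (8 * a) := by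
        apply ENNReal.ofReal_le_ofReal
        rw [mul_div_assoc', div_le_iff₀ hp0]
        nlinarith

/-- number of dyadic steps -/
def st (n : ℕ) : ℕ := 2 * Nat.log 2 (n + 1) + 2

lemma st_ge (n : ℕ) : (1 / 2 : ℝ) ^ st n ≤ 1 / ((n : ℝ) + 1) ^ 2 := by
  unfold st
  rw [one_div_pow]
  apply one_div_le_one_div_of_le (by positivity)
  have h1 : n + 1 < 2 ^ (Nat.log 2 (n + 1) + 1) := Nat.lt_pow_succ_log_self (by norm_num) _
  have h2 : ((n : ℝ) + 1) ≤ 2 ^ (Nat.log 2 (n + 1) + 1) := by exact_mod_cast h1.le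
  calc ((n : ℝ) + 1) ^ 2 ≤ (2 ^ (Nat.log 2 (n + 1) + 1)) ^ 2 := by gcongr
    _ = _ := by rw [← pow_mul]; congr 1; ring

lemma st_le {n : ℕ} (hn : 2 ≤ n) : (st n : ℝ) ≤ 10 * Real.log n := by
  unfold st
  have hl := Real.log_two_gt_d9
  have h1 : 2 ^ Nat.log 2 (n + 1) ≤ n + 1 := Nat.pow_log_le_self 2 (by omega)
  have h2 : (Nat.log 2 (n + 1) : ℝ) * Real.log 2 ≤ 2 * Real.log n := by
    calc (Nat.log 2 (n + 1) : ℝ) * Real.log 2 = Real.log ((2 : ℝ) ^ Nat.log 2 (n + 1)) := by rw [Real.log_pow]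
      _ ≤ Real.log ((n : ℝ) ^ 2) := by
          apply Real.log_le_log (by positivity)
          have : 2 ^ Nat.log 2 (n + 1) ≤ n ^ 2 := h1.trans (by nlinarith)
          exact_mod_cast this
      _ = 2 * Real.log n := by rw [Real.log_pow]; push_cast; ring
  have h3 : Real.log 2 ≤ Real.log n := Real.log_le_log (by norm_num) (by exact_mod_cast hn)
  push_cast
  have h4 : (Nat.log 2 (n + 1) : ℝ) ≤ 3 * Real.log n := by nlinarith
  linarith

/-- measure of the pairs in a unit square which are approximated by `p` -/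
lemma pair_vol {p : ℕ} (hp : 1 ≤ p) (s t δ γ w : ℝ) (hw : 1 / ((p : ℝ) + 1) ^ 2 ≤ w) :
    volume ((Set.Ico s (s + 1) ×ˢ Set.Ico t (t + 1)) ∩
      {x : ℝ × ℝ | nn ((p : ℝ) * x.1 - δ) * nn ((p : ℝ) * x.2 - γ) < w}) ≤ ENNReal.ofReal (136 * st p * w) := by
  have hw0 : 0 < w := lt_of_lt_of_le (by positivity) hw
  set J := st p with hJ
  have hJ1 : (1 : ℝ) ≤ J := by rw [hJ]; unfold st; push_cast; linarith [Nat.cast_nonneg (α := ℝ) (Nat.log 2 (p + 1))]
  have hsub : (Set.Ico s (s + 1) ×ˢ Set.Ico t (t + 1)) ∩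
      {x : ℝ × ℝ | nn ((p : ℝ) * x.1 - δ) * nn ((p : ℝ) * x.2 - γ) < w} ⊆
      (Set.Ico s (s + 1) ∩ {x : ℝ | nn ((p : ℝ) * x - δ) ≤ (1 / 2) ^ J}) ×ˢ Set.Ico t (t + 1) ∪
      ⋃ j ∈ range J, (Set.Ico s (s + 1) ∩ {x : ℝ | nn ((p : ℝ) * x - δ) ≤ (1 / 2) ^ j}) ×ˢ
        (Set.Ico t (t + 1) ∩ {x : ℝ | nn ((p : ℝ) * x - γ) ≤ w * 2 ^ (j + 1)}) := by
    rintro ⟨x, y⟩ ⟨⟨hx, hy⟩, hxy⟩
    simp only [Set.mem_ofPred_eq] at hxy
    by_cases h1 : nn ((p : ℝ) * x - δ) ≤ (1 / 2) ^ J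
    · left; exact ⟨⟨hx, h1⟩, hy⟩
    · right
      push Not at h1
      set u := nn ((p : ℝ) * x - δ) with hu
      have hu2 : u ≤ 1 / 2 := abs_sub_round _
      -- the least exponent
      have hex : ∃ j, (1 / 2 : ℝ) ^ (j + 1) < u := ⟨J, lt_of_le_of_lt (pow_le_pow_of_le_one (by norm_num) (by norm_num) (by omega)) h1⟩
      classical
      set j := Nat.find hex with hj
      have hj1 : (1 / 2 : ℝ) ^ (j + 1) < u := Nat.find_spec hex
      have hjJ : j < J := by
        by_contra hcon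
        push Not at hcon
        have hJpos : 0 < J := by rw [hJ]; unfold st; omega
        have h3 : ¬ (1 / 2 : ℝ) ^ (J - 1 + 1) < u := Nat.find_min hex (by omega)
        rw [Nat.sub_add_cancel hJpos] at h3
        exact h3 h1
      have hj2 : u ≤ (1 / 2) ^ j := by
        rcases Nat.eq_zero_or_pos j with h0 | h0
        · rw [h0, pow_zero]; linarith
        · have h3 : ¬ (1 / 2 : ℝ) ^ (j - 1 + 1) < u := Nat.find_min hex (by omega)
          rw [Nat.sub_add_cancel h0] at h3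
          exact not_lt.1 h3
      rw [Set.mem_iUnion₂]
      refine ⟨j, mem_range.2 hjJ, ⟨hx, hj2⟩, hy, ?_⟩
      simp only [Set.mem_ofPred_eq]
      have hv := nn_nonneg ((p : ℝ) * y - γ)
      have h5 : (1 / 2 : ℝ) ^ (j + 1) * nn ((p : ℝ) * y - γ) ≤ w := by
        calc (1 / 2 : ℝ) ^ (j + 1) * nn ((p : ℝ) * y - γ) ≤ u * nn ((p : ℝ) * y - γ) := by gcongr
          _ ≤ w := hxy.le
      rw [one_div_pow, one_div_mul_eq_div, div_le_iff₀ (by positivity)] at h5
      exact h5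
  refine (measure_mono hsub).trans ?_
  refine (measure_union_le _ _).trans ?_
  have hA : volume ((Set.Ico s (s + 1) ∩ {x : ℝ | nn ((p : ℝ) * x - δ) ≤ (1 / 2) ^ J}) ×ˢ Set.Ico t (t + 1)) ≤
      ENNReal.ofReal (8 * w) := by
    rw [Measure.volume_eq_prod, Measure.prod_prod, Real.volume_Ico]
    have : t + 1 - t = 1 := by ring
    rw [this, ENNReal.ofReal_one, mul_one]
    refine (vol_le hp s δ _ (by positivity)).trans ?_
    apply ENNReal.ofReal_le_ofReal
    have := st_ge p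
    linarith
  have hB : volume (⋃ j ∈ range J, (Set.Ico s (s + 1) ∩ {x : ℝ | nn ((p : ℝ) * x - δ) ≤ (1 / 2) ^ j}) ×ˢ
        (Set.Ico t (t + 1) ∩ {x : ℝ | nn ((p : ℝ) * x - γ) ≤ w * 2 ^ (j + 1)})) ≤ ENNReal.ofReal (J * (128 * w)) := by
    refine (measure_biUnion_finset_le _ _).trans ?_
    calc _ ≤ ∑ _j ∈ range J, ENNReal.ofReal (128 * w) := by
          apply sum_le_sum
          intro j _
          rw [Measure.volume_eq_prod, Measure.prod_prod]
          calc _ ≤ ENNReal.ofReal (8 * (1 / 2) ^ j) * ENNReal.ofReal (8 * (w * 2 ^ (j + 1))) := by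
                gcongr
                · exact vol_le hp s δ _ (by positivity)
                · exact vol_le hp t γ _ (by positivity)
            _ = ENNReal.ofReal (128 * w) := by
                rw [← ENNReal.ofReal_mul (by positivity)]
                congr 1
                rw [one_div_pow, pow_succ]
                field_simp
                norm_num
      _ = ENNReal.ofReal (J * (128 * w)) := by
          rw [sum_const, card_range, nsmul_eq_mul, ENNReal.ofReal_mul (p := (J : ℝ)) (q := 128 * w) (by positivity),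
            ENNReal.ofReal_natCast]
  calc _ ≤ ENNReal.ofReal (8 * w) + ENNReal.ofReal (J * (128 * w)) := add_le_add hA hB
    _ = ENNReal.ofReal (8 * w + J * (128 * w)) := by rw [ENNReal.ofReal_add (by positivity) (by positivity)]
    _ ≤ ENNReal.ofReal (136 * J * w) := by
        apply ENNReal.ofReal_le_ofReal
        nlinarith

/-- the convergent sum over the primes -/
lemma prime_summable {ψ : ℕ → ℝ} (h0 : ∀ n, 0 ≤ ψ n) (hanti : Antitone ψ) (hs : Summable ψ) :
    Summable fun n : ℕ => om n * ψ n := by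
  have hf0 : ∀ n, 0 ≤ om n * ψ n := fun n => mul_nonneg (om_nonneg n) (h0 n)
  apply summable_of_blocks hf0
  -- condensation
  have hb := summable_blocks h0 hs
  rw [← summable_nat_add_iff 1]
  apply Summable.of_nonneg_of_le (fun m => sum_nonneg fun n _ => hf0 n) (f := fun m : ℕ => 11 * 4 * ∑ n ∈ Ioc (4 ^ m) (4 ^ (m + 1)), ψ n)
  swap
  · exact hb.mul_left _
  intro m
  have h1 : ∑ n ∈ Ioc (4 ^ (m + 1)) (4 ^ (m + 1 + 1)), om n * ψ n ≤ ψ (4 ^ (m + 1)) * (2 * 4 ^ (m + 2)) := by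
    calc ∑ n ∈ Ioc (4 ^ (m + 1)) (4 ^ (m + 1 + 1)), om n * ψ n ≤
          ∑ n ∈ Ioc (4 ^ (m + 1)) (4 ^ (m + 1 + 1)), om n * ψ (4 ^ (m + 1)) := by
          apply sum_le_sum
          intro n hn
          rw [mem_Ioc] at hn
          exact mul_le_mul_of_nonneg_left (hanti hn.1.le) (om_nonneg n)
      _ = ψ (4 ^ (m + 1)) * ∑ n ∈ Ioc (4 ^ (m + 1)) (4 ^ (m + 1 + 1)), om n := by rw [← sum_mul, mul_comm]
      _ ≤ ψ (4 ^ (m + 1)) * ∑ n ∈ Icc 1 (4 ^ (m + 2)), om n := by
          apply mul_le_mul_of_nonneg_left _ (h0 _)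
          apply sum_le_sum_of_subset_of_nonneg
          · intro n hn
            rw [mem_Ioc] at hn
            rw [mem_Icc]
            exact ⟨by omega, hn.2⟩
          · intro n _ _; exact om_nonneg n
      _ ≤ ψ (4 ^ (m + 1)) * (2 * 4 ^ (m + 2)) := by
          apply mul_le_mul_of_nonneg_left _ (h0 _)
          rw [sum_om]
          have h := Chebyshev.theta_le_log4_mul_x (x := ((4 ^ (m + 2) : ℕ) : ℝ)) (Nat.cast_nonneg _)
          refine h.trans ?_
          push_cast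
          exact mul_le_mul_of_nonneg_right log4 (by positivity)
  have h2 : ψ (4 ^ (m + 1)) * (3 * 4 ^ m) ≤ ∑ n ∈ Ioc (4 ^ m) (4 ^ (m + 1)), ψ n := by
    calc ψ (4 ^ (m + 1)) * (3 * 4 ^ m) = ∑ _n ∈ Ioc (4 ^ m) (4 ^ (m + 1)), ψ (4 ^ (m + 1)) := by
          rw [sum_const, Nat.card_Ioc, nsmul_eq_mul, Nat.cast_sub (Nat.pow_le_pow_right (by norm_num) (by omega))]
          push_cast
          ring
      _ ≤ _ := by
          apply sum_le_sum
          intro n hn
          rw [mem_Ioc] at hn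
          exact hanti hn.2
  have h3 := h0 (4 ^ (m + 1))
  have h4 : (0 : ℝ) < 4 ^ m := by positivity
  calc _ ≤ ψ (4 ^ (m + 1)) * (2 * 4 ^ (m + 2)) := h1
    _ = 32 / 3 * (ψ (4 ^ (m + 1)) * (3 * 4 ^ m)) := by ring
    _ ≤ 11 * 4 * (ψ (4 ^ (m + 1)) * (3 * 4 ^ m)) := by
        apply mul_le_mul_of_nonneg_right (by norm_num) (by positivity)
    _ ≤ _ := by gcongr

/-- **The convergence case.** -/
theorem conv {ψ : ℕ → ℝ} (h0 : ∀ n, 0 ≤ ψ n) (hanti : Antitone ψ) (hs : Summable ψ) (δ γ : ℕ → ℝ) :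
    ∀ᵐ x : ℝ × ℝ, ∀ᶠ p : ℕ in atTop, p.Prime → ψ p ≤ nn ((p : ℝ) * x.1 - δ p) * nn ((p : ℝ) * x.2 - γ p) := by
  set w : ℕ → ℝ := fun n => ψ n + 1 / ((n : ℝ) + 1) ^ 2 with hw
  have hw0 : ∀ n, 0 ≤ w n := fun n => add_nonneg (h0 n) (by positivity)
  have hwanti : Antitone w := by
    intro a b hab
    simp only [hw]
    have : (a : ℝ) ≤ b := by exact_mod_cast hab
    apply add_le_add (hanti hab)
    gcongr
  have hws : Summable w := by
    apply hs.add
    have : Summable fun n : ℕ => 1 / ((n : ℝ)) ^ 2 := Real.summable_one_div_nat_pow.2 (by norm_num)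
    have h := (summable_nat_add_iff 1).2 this
    refine h.congr fun n => ?_
    push_cast
    rfl
  have hps := prime_summable hw0 hwanti hws
  have hsq : ∀ s t : ℤ, ∀ᵐ x : ℝ × ℝ, x ∈ Set.Ico (s : ℝ) (s + 1) ×ˢ Set.Ico (t : ℝ) (t + 1) →
      ∀ᶠ p : ℕ in atTop, p.Prime → ψ p ≤ nn ((p : ℝ) * x.1 - δ p) * nn ((p : ℝ) * x.2 - γ p) := by
    intro s t
    set E : ℕ → Set (ℝ × ℝ) := fun p => {x | p.Prime ∧ x ∈ (Set.Ico (s : ℝ) (s + 1) ×ˢ Set.Ico (t : ℝ) (t + 1)) ∩
      {x : ℝ × ℝ | nn ((p : ℝ) * x.1 - δ p) * nn ((p : ℝ) * x.2 - γ p) < w p}} with hE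
    have hEle : ∀ p, volume (E p) ≤ ENNReal.ofReal (1360 * (om p * w p)) := by
      intro p
      by_cases hp : p.Prime
      · have h1 : E p ⊆ (Set.Ico (s : ℝ) (s + 1) ×ˢ Set.Ico (t : ℝ) (t + 1)) ∩
            {x : ℝ × ℝ | nn ((p : ℝ) * x.1 - δ p) * nn ((p : ℝ) * x.2 - γ p) < w p} := fun x hx => hx.2
        refine (measure_mono h1).trans ?_
        refine (pair_vol hp.one_le s t (δ p) (γ p) (w p) ?_).trans ?_
        · simp only [hw]
          have := h0 p
          linarith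
        · apply ENNReal.ofReal_le_ofReal
          have h2 : om p = Real.log p := by unfold om; rw [if_pos hp]
          rw [h2]
          have h3 := st_le hp.two_le
          have h4 := hw0 p
          calc 136 * (st p : ℝ) * w p ≤ 136 * (10 * Real.log p) * w p := by gcongr
            _ = _ := by ring
      · have h1 : E p = ∅ := by
          ext x; simp only [hE, Set.mem_ofPred_eq, Set.mem_empty_iff_false, iff_false]
          rintro ⟨h, -⟩; exact hp h
        rw [h1, measure_empty]; exact zero_le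
    have hsum : ∑' p, volume (E p) ≠ ∞ := by
      apply ne_top_of_le_ne_top _ (ENNReal.tsum_le_tsum hEle)
      have := (hps.mul_left 1360).tsum_ofReal_ne_top
      exact this
    have hBC := ae_eventually_notMem hsum
    filter_upwards [hBC] with x hx hxs
    filter_upwards [hx] with p hp hpp
    by_contra hcon
    push Not at hcon
    apply hp
    refine ⟨hpp, hxs, ?_⟩
    simp only [Set.mem_ofPred_eq]
    refine lt_of_lt_of_le hcon ?_
    simp only [hw]
    have : (0 : ℝ) ≤ 1 / ((p : ℝ) + 1) ^ 2 := by positivity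
    linarith
  have hall : ∀ᵐ x : ℝ × ℝ, ∀ s t : ℤ, x ∈ Set.Ico (s : ℝ) (s + 1) ×ˢ Set.Ico (t : ℝ) (t + 1) →
      ∀ᶠ p : ℕ in atTop, p.Prime → ψ p ≤ nn ((p : ℝ) * x.1 - δ p) * nn ((p : ℝ) * x.2 - γ p) := by
    rw [ae_all_iff]; intro s
    rw [ae_all_iff]; intro t
    exact hsq s t
  filter_upwards [hall] with x hx
  exact hx ⌊x.1⌋ ⌊x.2⌋ ⟨⟨Int.floor_le _, Int.lt_floor_add_one _⟩, ⟨Int.floor_le _, Int.lt_floor_add_one _⟩⟩

end Pool.Agent.V7H17.LP
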