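import Mathlib
import Pool.Agent.V7H17.LP.Conv

/-! The convergence case for almost every tuple. -/

set_option autoImplicit false

namespace Pool.Agent.V7H17.LP
open MeasureTheory Finset Filter
open Pool.Agent.W301.SS
open scoped ENNReal

/-- the dyadic position of a number in `(2^(-J), 1/2]` -/
lemma dyadic {J : ℕ} (hJ : 1 ≤ J) {u : ℝ} (h1 : (1 / 2 : ℝ) ^ J < u) (hu2 : u ≤ 1 / 2) :
    ∃ j < J, (1 / 2 : ℝ) ^ (j + 1) < u ∧ u ≤ (1 / 2) ^ j := by
  have hex : ∃ j, (1 / 2 : ℝ) ^ (j + 1) < u :=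
    ⟨J, lt_of_le_of_lt (pow_le_pow_of_le_one (by norm_num) (by norm_num) (by omega)) h1⟩
  classical
  set j := Nat.find hex with hj
  have hj1 : (1 / 2 : ℝ) ^ (j + 1) < u := Nat.find_spec hex
  have hjJ : j < J := by
    by_contra hcon
    push Not at hcon
    have h3 : ¬ (1 / 2 : ℝ) ^ (J - 1 + 1) < u := Nat.find_min hex (by omega)
    rw [Nat.sub_add_cancel hJ] at h3
    exact h3 h1
  refine ⟨j, hjJ, hj1, ?_⟩
  rcases Nat.eq_zero_or_pos j with h0 | h0
  · rw [h0, pow_zero]; linarith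
  · have h3 : ¬ (1 / 2 : ℝ) ^ (j - 1 + 1) < u := Nat.find_min hex (by omega)
    rw [Nat.sub_add_cancel h0] at h3
    exact not_lt.1 h3

/-- measure of the tuples in a unit cube which are approximated by `p` -/
lemma tuple_vol {k p : ℕ} (hp : 1 ≤ p) (s δ : Fin k → ℝ) (t γ w : ℝ) (hw : 1 / ((p : ℝ) + 1) ^ 2 ≤ w) :
    volume (((Set.univ.pi fun i => Set.Ico (s i) (s i + 1)) ×ˢ Set.Ico t (t + 1)) ∩
      {x : (Fin k → ℝ) × ℝ | (∏ i, nn ((p : ℝ) * x.1 i - δ i)) * nn ((p : ℝ) * x.2 - γ) < w}) ≤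
      ENNReal.ofReal ((8 * k + 16 ^ (k + 1)) * (st p : ℝ) ^ k * w) := by
  classical
  have hw0 : 0 < w := lt_of_lt_of_le (by positivity) hw
  set J := st p with hJ
  have hJ1' : 1 ≤ J := by rw [hJ]; unfold st; omega
  have hJ1 : (1 : ℝ) ≤ J := by exact_mod_cast hJ1'
  have hJk : (1 : ℝ) ≤ (J : ℝ) ^ k := one_le_pow₀ hJ1
  set Q : Set (Fin k → ℝ) := Set.univ.pi fun i => Set.Ico (s i) (s i + 1) with hQ
  set S1 : Fin k → Set ((Fin k → ℝ) × ℝ) := fun i0 =>
    (Set.univ.pi fun i => Set.Ico (s i) (s i + 1) ∩ (if i = i0 then {x : ℝ | nn ((p : ℝ) * x - δ i) ≤ (1 / 2) ^ J} else Set.univ)) ×ˢ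
      Set.Ico t (t + 1) with hS1
  set S2 : (Fin k → ℕ) → Set ((Fin k → ℝ) × ℝ) := fun j =>
    (Set.univ.pi fun i => Set.Ico (s i) (s i + 1) ∩ {x : ℝ | nn ((p : ℝ) * x - δ i) ≤ (1 / 2) ^ j i}) ×ˢ
      (Set.Ico t (t + 1) ∩ {x : ℝ | nn ((p : ℝ) * x - γ) ≤ w * 2 ^ (∑ i, (j i + 1))}) with hS2
  have hsub : (Q ×ˢ Set.Ico t (t + 1)) ∩
      {x : (Fin k → ℝ) × ℝ | (∏ i, nn ((p : ℝ) * x.1 i - δ i)) * nn ((p : ℝ) * x.2 - γ) < w} ⊆
      (⋃ i ∈ (univ : Finset (Fin k)), S1 i) ∪ ⋃ j ∈ Fintype.piFinset (fun _ : Fin k => range J), S2 j := by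
    rintro ⟨x, y⟩ ⟨⟨hx, hy⟩, hxy⟩
    simp only [Set.mem_ofPred_eq] at hxy
    simp only [hQ, Set.mem_univ_pi] at hx
    by_cases h1 : ∃ i0, nn ((p : ℝ) * x i0 - δ i0) ≤ (1 / 2) ^ J
    · left
      obtain ⟨i0, h1⟩ := h1
      rw [Set.mem_iUnion₂]
      refine ⟨i0, mem_univ _, ?_, hy⟩
      simp only [Set.mem_univ_pi]
      intro i
      refine ⟨hx i, ?_⟩
      split_ifs with h
      · subst h; exact h1
      · trivial
    · right
      push Not at h1
      have h2 : ∀ i, ∃ j < J, (1 / 2 : ℝ) ^ (j + 1) < nn ((p : ℝ) * x i - δ i) ∧ nn ((p : ℝ) * x i - δ i) ≤ (1 / 2) ^ j :=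
        fun i => dyadic hJ1' (h1 i) (abs_sub_round _)
      choose j hjJ hj1 hj2 using h2
      rw [Set.mem_iUnion₂]
      refine ⟨j, by rw [Fintype.mem_piFinset]; intro i; exact mem_range.2 (hjJ i), ?_, hy, ?_⟩
      · simp only [Set.mem_univ_pi]
        intro i
        exact ⟨hx i, hj2 i⟩
      · simp only [Set.mem_ofPred_eq]
        have hv := nn_nonneg ((p : ℝ) * y - γ)
        have h5 : (1 / 2 : ℝ) ^ (∑ i, (j i + 1)) * nn ((p : ℝ) * y - γ) ≤ w := by
          calc (1 / 2 : ℝ) ^ (∑ i, (j i + 1)) * nn ((p : ℝ) * y - γ) ≤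
                (∏ i, nn ((p : ℝ) * x i - δ i)) * nn ((p : ℝ) * y - γ) := by
                apply mul_le_mul_of_nonneg_right _ hv
                rw [← prod_pow_eq_pow_sum]
                exact Finset.prod_le_prod (fun i _ => by positivity) fun i _ => (hj1 i).le
            _ ≤ w := hxy.le
        rw [one_div_pow, one_div_mul_eq_div, div_le_iff₀ (by positivity)] at h5
        exact h5
  refine (measure_mono hsub).trans ?_
  refine (measure_union_le _ _).trans ?_
  have hA : volume (⋃ i ∈ (univ : Finset (Fin k)), S1 i) ≤ ENNReal.ofReal (k * (8 * w)) := by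
    refine (measure_biUnion_finset_le _ _).trans ?_
    calc _ ≤ ∑ _i : Fin k, ENNReal.ofReal (8 * w) := by
          apply sum_le_sum
          intro i0 _
          simp only [hS1]
          rw [Measure.volume_eq_prod, Measure.prod_prod, Real.volume_Ico, volume_pi_pi]
          have e1 : t + 1 - t = 1 := by ring
          rw [e1, ENNReal.ofReal_one, mul_one]
          rw [← Finset.mul_prod_erase univ _ (mem_univ i0)]
          have e2 : ∏ x ∈ univ.erase i0, volume (Set.Ico (s x) (s x + 1) ∩ (if x = i0 then {x_1 : ℝ | nn ((p : ℝ) * x_1 - δ x) ≤ (1 / 2) ^ J} else Set.univ)) = 1 := by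
            apply prod_eq_one
            intro i hi
            rw [mem_erase] at hi
            rw [if_neg hi.1, Set.inter_univ, Real.volume_Ico]
            have : s i + 1 - s i = 1 := by ring
            rw [this, ENNReal.ofReal_one]
          rw [e2, mul_one, if_pos rfl]
          refine (vol_le hp (s i0) (δ i0) _ (by positivity)).trans ?_
          apply ENNReal.ofReal_le_ofReal
          have := st_ge p
          linarith
      _ = ENNReal.ofReal (k * (8 * w)) := by
          rw [sum_const, card_univ, Fintype.card_fin, nsmul_eq_mul, ENNReal.ofReal_mul (p := (k : ℝ)) (q := 8 * w) (by positivity),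
            ENNReal.ofReal_natCast]
  have hB : volume (⋃ j ∈ Fintype.piFinset (fun _ : Fin k => range J), S2 j) ≤ ENNReal.ofReal ((J : ℝ) ^ k * (16 ^ (k + 1) * w)) := by
    refine (measure_biUnion_finset_le _ _).trans ?_
    calc _ ≤ ∑ _j ∈ Fintype.piFinset (fun _ : Fin k => range J), ENNReal.ofReal (16 ^ (k + 1) * w) := by
          apply sum_le_sum
          intro j _
          simp only [hS2]
          rw [Measure.volume_eq_prod, Measure.prod_prod, volume_pi_pi]
          calc _ ≤ (∏ i, ENNReal.ofReal (8 * (1 / 2) ^ j i)) * ENNReal.ofReal (8 * (w * 2 ^ (∑ i, (j i + 1)))) := by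
                gcongr
                · exact vol_le hp _ _ _ (by positivity)
                · exact vol_le hp t γ _ (by positivity)
            _ = ENNReal.ofReal (8 * 16 ^ k * w) := by
                rw [← ENNReal.ofReal_prod_of_nonneg (fun i _ => by positivity), ← ENNReal.ofReal_mul (by positivity)]
                congr 1
                rw [prod_mul_distrib, prod_const, card_univ, Fintype.card_fin, prod_pow_eq_pow_sum, sum_add_distrib,
                  sum_const, card_univ, Fintype.card_fin, smul_eq_mul, mul_one, pow_add, one_div_pow]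
                have : (16 : ℝ) ^ k = 8 ^ k * 2 ^ k := by rw [← mul_pow]; norm_num
                rw [this]
                field_simp
            _ ≤ ENNReal.ofReal (16 ^ (k + 1) * w) := by
                apply ENNReal.ofReal_le_ofReal
                apply mul_le_mul_of_nonneg_right _ hw0.le
                rw [pow_succ]
                have : (0 : ℝ) < 16 ^ k := by positivity
                linarith
      _ = ENNReal.ofReal ((J : ℝ) ^ k * (16 ^ (k + 1) * w)) := by
          rw [sum_const, Fintype.card_piFinset, prod_const, card_univ, Fintype.card_fin, card_range, nsmul_eq_mul,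
            ENNReal.ofReal_mul (p := (J : ℝ) ^ k) (q := 16 ^ (k + 1) * w) (by positivity)]
          congr 1
          push_cast
          rw [ENNReal.ofReal_pow (by positivity), ENNReal.ofReal_natCast]
  calc _ ≤ ENNReal.ofReal (k * (8 * w)) + ENNReal.ofReal ((J : ℝ) ^ k * (16 ^ (k + 1) * w)) := add_le_add hA hB
    _ = ENNReal.ofReal (k * (8 * w) + (J : ℝ) ^ k * (16 ^ (k + 1) * w)) := by
        rw [ENNReal.ofReal_add (by positivity) (by positivity)]
    _ ≤ ENNReal.ofReal ((8 * k + 16 ^ (k + 1)) * (J : ℝ) ^ k * w) := by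
        apply ENNReal.ofReal_le_ofReal
        have h1 : (k : ℝ) * (8 * w) ≤ (J : ℝ) ^ k * (k * (8 * w)) := by
          have : 0 ≤ (k : ℝ) * (8 * w) := by positivity
          nlinarith
        linarith

/-- the convergent sum over the primes -/
lemma prime_summableK {ψ : ℕ → ℝ} (h0 : ∀ n, 0 ≤ ψ n) (hanti : Antitone ψ) (r : ℕ)
    (hs : Summable fun n : ℕ => ψ n * Real.log n ^ r) :
    Summable fun n : ℕ => om n * (ψ n * Real.log n ^ r) := by
  have hlog : ∀ n : ℕ, 0 ≤ Real.log n := fun n => Real.log_natCast_nonneg n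
  have hg0 : ∀ n : ℕ, 0 ≤ ψ n * Real.log n ^ r := fun n => mul_nonneg (h0 n) (pow_nonneg (hlog n) _)
  have hf0 : ∀ n : ℕ, 0 ≤ om n * (ψ n * Real.log n ^ r) := fun n => mul_nonneg (om_nonneg n) (hg0 n)
  apply summable_of_blocks hf0
  have hb := summable_blocks hg0 hs
  rw [← summable_nat_add_iff 2]
  have hb1 := (summable_nat_add_iff 1).2 hb
  apply Summable.of_nonneg_of_le (fun m => sum_nonneg fun n _ => hf0 n)
    (f := fun m : ℕ => 44 * 3 ^ r * ∑ n ∈ Ioc (4 ^ (m + 1)) (4 ^ (m + 1 + 1)), ψ n * Real.log n ^ r)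
  swap
  · exact hb1.mul_left _
  intro m
  have hl4 : 0 < Real.log 4 := Real.log_pos (by norm_num)
  have h1 : ∑ n ∈ Ioc (4 ^ (m + 2)) (4 ^ (m + 2 + 1)), om n * (ψ n * Real.log n ^ r) ≤
      ψ (4 ^ (m + 2)) * ((m + 3) * Real.log 4) ^ r * (2 * 4 ^ (m + 3)) := by
    calc ∑ n ∈ Ioc (4 ^ (m + 2)) (4 ^ (m + 2 + 1)), om n * (ψ n * Real.log n ^ r) ≤
          ∑ n ∈ Ioc (4 ^ (m + 2)) (4 ^ (m + 2 + 1)), om n * (ψ (4 ^ (m + 2)) * ((m + 3) * Real.log 4) ^ r) := by
          apply sum_le_sum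
          intro n hn
          rw [mem_Ioc] at hn
          apply mul_le_mul_of_nonneg_left _ (om_nonneg n)
          apply mul_le_mul (hanti hn.1.le) _ (pow_nonneg (hlog n) _) (h0 _)
          apply pow_le_pow_left₀ (hlog n)
          have hnpos : 0 < n := by omega
          calc Real.log n ≤ Real.log ((4 : ℝ) ^ (m + 2 + 1)) := by
                apply Real.log_le_log (by exact_mod_cast hnpos)
                exact_mod_cast hn.2
            _ = (m + 3) * Real.log 4 := by rw [Real.log_pow]; push_cast; ring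
      _ = ψ (4 ^ (m + 2)) * ((m + 3) * Real.log 4) ^ r * ∑ n ∈ Ioc (4 ^ (m + 2)) (4 ^ (m + 2 + 1)), om n := by
          rw [← sum_mul, mul_comm]
      _ ≤ ψ (4 ^ (m + 2)) * ((m + 3) * Real.log 4) ^ r * ∑ n ∈ Icc 1 (4 ^ (m + 3)), om n := by
          have := h0 (4 ^ (m + 2))
          apply mul_le_mul_of_nonneg_left _ (by positivity)
          apply sum_le_sum_of_subset_of_nonneg
          · intro n hn
            rw [mem_Ioc] at hn
            rw [mem_Icc]
            exact ⟨by omega, hn.2⟩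
          · intro n _ _; exact om_nonneg n
      _ ≤ ψ (4 ^ (m + 2)) * ((m + 3) * Real.log 4) ^ r * (2 * 4 ^ (m + 3)) := by
          have := h0 (4 ^ (m + 2))
          apply mul_le_mul_of_nonneg_left _ (by positivity)
          rw [sum_om]
          have h := Chebyshev.theta_le_log4_mul_x (x := ((4 ^ (m + 3) : ℕ) : ℝ)) (Nat.cast_nonneg _)
          refine h.trans ?_
          push_cast
          exact mul_le_mul_of_nonneg_right log4 (by positivity)
  have h2 : ψ (4 ^ (m + 2)) * ((m + 1) * Real.log 4) ^ r * (12 * 4 ^ m) ≤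
      ∑ n ∈ Ioc (4 ^ (m + 1)) (4 ^ (m + 1 + 1)), ψ n * Real.log n ^ r := by
    calc ψ (4 ^ (m + 2)) * ((m + 1) * Real.log 4) ^ r * (12 * 4 ^ m) =
          ∑ _n ∈ Ioc (4 ^ (m + 1)) (4 ^ (m + 1 + 1)), ψ (4 ^ (m + 2)) * ((m + 1) * Real.log 4) ^ r := by
          rw [sum_const, Nat.card_Ioc, nsmul_eq_mul, Nat.cast_sub (Nat.pow_le_pow_right (by norm_num) (by omega))]
          push_cast
          ring
      _ ≤ _ := by
          apply sum_le_sum
          intro n hn
          rw [mem_Ioc] at hn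
          apply mul_le_mul (hanti hn.2) _ (by positivity) (h0 n)
          apply pow_le_pow_left₀ (by positivity)
          calc ((m : ℝ) + 1) * Real.log 4 = Real.log ((4 : ℝ) ^ (m + 1)) := by rw [Real.log_pow]; push_cast; ring
            _ ≤ Real.log n := by
                apply Real.log_le_log (by positivity)
                exact_mod_cast hn.1.le
  have h3 := h0 (4 ^ (m + 2))
  have h5 : ((m + 3) * Real.log 4) ^ r ≤ 3 ^ r * ((m + 1) * Real.log 4) ^ r := by
    rw [← mul_pow]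
    apply pow_le_pow_left₀ (by positivity)
    have : (0 : ℝ) ≤ m := Nat.cast_nonneg m
    nlinarith
  calc _ ≤ ψ (4 ^ (m + 2)) * ((m + 3) * Real.log 4) ^ r * (2 * 4 ^ (m + 3)) := h1
    _ ≤ ψ (4 ^ (m + 2)) * (3 ^ r * ((m + 1) * Real.log 4) ^ r) * (2 * 4 ^ (m + 3)) := by gcongr
    _ = 32 / 3 * 3 ^ r * (ψ (4 ^ (m + 2)) * ((m + 1) * Real.log 4) ^ r * (12 * 4 ^ m)) := by ring
    _ ≤ 44 * 3 ^ r * (ψ (4 ^ (m + 2)) * ((m + 1) * Real.log 4) ^ r * (12 * 4 ^ m)) := by
        gcongr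
        norm_num
    _ ≤ _ := by gcongr

lemma summable_log_sq (r : ℕ) : Summable fun n : ℕ => 1 / ((n : ℝ) + 1) ^ 2 * Real.log n ^ r := by
  have h1 : (fun n : ℕ => Real.log n ^ r) =o[atTop] fun n : ℕ => (n : ℝ) ^ (1 / 2 : ℝ) := by
    have := isLittleO_log_rpow_rpow_atTop (r : ℝ) (show (0 : ℝ) < 1 / 2 by norm_num)
    have h2 := this.comp_tendsto (tendsto_natCast_atTop_atTop (R := ℝ))
    refine h2.congr' ?_ ?_
    · apply Eventually.of_forall
      intro n
      simp only [Function.comp, Real.rpow_natCast]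
    · apply Eventually.of_forall
      intro n
      rfl
  have h3 : Summable fun n : ℕ => 1 / (n : ℝ) ^ (3 / 2 : ℝ) := Real.summable_one_div_nat_rpow.2 (by norm_num)
  apply Summable.of_norm_bounded_eventually_nat h3
  filter_upwards [h1.bound (show (0 : ℝ) < 1 by norm_num), eventually_ge_atTop 1] with n hn hn1
  have hn0 : (0 : ℝ) < n := by exact_mod_cast hn1
  rw [one_mul] at hn
  rw [norm_mul, Real.norm_eq_abs (1 / ((n : ℝ) + 1) ^ 2), abs_of_pos (by positivity)]
  calc 1 / ((n : ℝ) + 1) ^ 2 * ‖Real.log n ^ r‖ ≤ 1 / (n : ℝ) ^ 2 * ‖(n : ℝ) ^ (1 / 2 : ℝ)‖ := by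
        gcongr
        linarith
    _ = 1 / (n : ℝ) ^ (3 / 2 : ℝ) := by
        rw [Real.norm_eq_abs, abs_of_pos (by positivity), one_div, one_div (((n : ℝ)) ^ (3 / 2 : ℝ)), ← Real.rpow_natCast, ← Real.rpow_neg hn0.le,
          ← Real.rpow_neg hn0.le, ← Real.rpow_add hn0]
        norm_num

/-- **The convergence case.** -/
theorem convK {k : ℕ} (hk : 1 ≤ k) {ψ : ℕ → ℝ} (h0 : ∀ n, 0 ≤ ψ n) (hanti : Antitone ψ)
    (hs : Summable fun n : ℕ => ψ n * Real.log n ^ (k - 1)) (δ : ℕ → Fin k → ℝ) (γ : ℕ → ℝ) :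
    ∀ᵐ x : (Fin k → ℝ) × ℝ, ∀ᶠ p : ℕ in atTop, p.Prime →
      ψ p ≤ (∏ i, nn ((p : ℝ) * x.1 i - δ p i)) * nn ((p : ℝ) * x.2 - γ p) := by
  set w : ℕ → ℝ := fun n => ψ n + 1 / ((n : ℝ) + 1) ^ 2 with hw
  have hw0 : ∀ n, 0 ≤ w n := fun n => add_nonneg (h0 n) (by positivity)
  have hwanti : Antitone w := by
    intro a b hab
    simp only [hw]
    have : (a : ℝ) ≤ b := by exact_mod_cast hab
    apply add_le_add (hanti hab)
    gcongr
  have hws : Summable fun n : ℕ => w n * Real.log n ^ (k - 1) := by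
    have := hs.add (summable_log_sq (k - 1))
    refine this.congr fun n => ?_
    simp only [hw]
    ring
  have hps := prime_summableK hw0 hwanti (k - 1) hws
  have hsq : ∀ (s : Fin k → ℤ) (t : ℤ), ∀ᵐ x : (Fin k → ℝ) × ℝ,
      x ∈ (Set.univ.pi fun i => Set.Ico (s i : ℝ) (s i + 1)) ×ˢ Set.Ico (t : ℝ) (t + 1) →
      ∀ᶠ p : ℕ in atTop, p.Prime → ψ p ≤ (∏ i, nn ((p : ℝ) * x.1 i - δ p i)) * nn ((p : ℝ) * x.2 - γ p) := by
    intro s t
    set E : ℕ → Set ((Fin k → ℝ) × ℝ) := fun p => {x | p.Prime ∧ x ∈ ((Set.univ.pi fun i => Set.Ico (s i : ℝ) (s i + 1)) ×ˢ Set.Ico (t : ℝ) (t + 1)) ∩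
      {x : (Fin k → ℝ) × ℝ | (∏ i, nn ((p : ℝ) * x.1 i - δ p i)) * nn ((p : ℝ) * x.2 - γ p) < w p}} with hE
    have hEle : ∀ p, volume (E p) ≤ ENNReal.ofReal (((8 * k + 16 ^ (k + 1)) * 10 ^ k) * (om p * (w p * Real.log p ^ (k - 1)))) := by
      intro p
      by_cases hp : p.Prime
      · have h1 : E p ⊆ ((Set.univ.pi fun i => Set.Ico (s i : ℝ) (s i + 1)) ×ˢ Set.Ico (t : ℝ) (t + 1)) ∩
            {x : (Fin k → ℝ) × ℝ | (∏ i, nn ((p : ℝ) * x.1 i - δ p i)) * nn ((p : ℝ) * x.2 - γ p) < w p} := fun x hx => hx.2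
        refine (measure_mono h1).trans ?_
        refine (tuple_vol hp.one_le (fun i => (s i : ℝ)) (δ p) t (γ p) (w p) ?_).trans ?_
        · simp only [hw]
          have := h0 p
          linarith
        · apply ENNReal.ofReal_le_ofReal
          have h2 : om p = Real.log p := by unfold om; rw [if_pos hp]
          rw [h2]
          have h3 := st_le hp.two_le
          have h4 := hw0 p
          have h5 : 0 ≤ Real.log p := Real.log_natCast_nonneg p
          have h6 : Real.log p ^ k = Real.log p * Real.log p ^ (k - 1) := by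
            rw [← pow_succ']; congr 1; omega
          calc (8 * (k : ℝ) + 16 ^ (k + 1)) * (st p : ℝ) ^ k * w p ≤ (8 * (k : ℝ) + 16 ^ (k + 1)) * (10 * Real.log p) ^ k * w p := by gcongr
            _ = _ := by rw [mul_pow, h6]; ring
      · have h1 : E p = ∅ := by
          ext x; simp only [hE, Set.mem_ofPred_eq, Set.mem_empty_iff_false, iff_false]
          rintro ⟨h, -⟩; exact hp h
        rw [h1, measure_empty]; exact zero_le
    have hsum : ∑' p, volume (E p) ≠ ∞ := by
      apply ne_top_of_le_ne_top _ (ENNReal.tsum_le_tsum hEle)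
      exact (hps.mul_left ((8 * (k : ℝ) + 16 ^ (k + 1)) * 10 ^ k)).tsum_ofReal_ne_top
    have hBC := ae_eventually_notMem hsum
    filter_upwards [hBC] with x hx hxs
    filter_upwards [hx] with p hp hpp
    by_contra hcon
    push Not at hcon
    apply hp
    refine ⟨hpp, hxs, ?_⟩
    simp only [Set.mem_ofPred_eq]
    refine lt_of_lt_of_le hcon ?_
    simp only [hw]
    have : (0 : ℝ) ≤ 1 / ((p : ℝ) + 1) ^ 2 := by positivity
    linarith
  have hall : ∀ᵐ x : (Fin k → ℝ) × ℝ, ∀ (s : Fin k → ℤ) (t : ℤ),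
      x ∈ (Set.univ.pi fun i => Set.Ico (s i : ℝ) (s i + 1)) ×ˢ Set.Ico (t : ℝ) (t + 1) →
      ∀ᶠ p : ℕ in atTop, p.Prime → ψ p ≤ (∏ i, nn ((p : ℝ) * x.1 i - δ p i)) * nn ((p : ℝ) * x.2 - γ p) := by
    rw [ae_all_iff]; intro s
    rw [ae_all_iff]; intro t
    exact hsq s t
  filter_upwards [hall] with x hx
  apply hx (fun i => ⌊x.1 i⌋) ⌊x.2⌋
  refine ⟨?_, Int.floor_le _, Int.lt_floor_add_one _⟩
  simp only [Set.mem_univ_pi]
  intro i
  exact ⟨Int.floor_le _, Int.lt_floor_add_one _⟩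

end Pool.Agent.V7H17.LP
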