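import Mathlib
import Pool.Agent.V7H17.LP.ConvK

/-! On some fibres the Khintchine condition is not sufficient. -/

set_option autoImplicit false

namespace Pool.Agent.V7H17.LP
open MeasureTheory Finset Filter
open Pool.Agent.W301.SS
open scoped ENNReal

lemma prime_density (K : ℕ) : ∃ b0 : ℕ, ∀ b ≥ b0, (Nat.primeCounting (2 ^ b) : ℝ) * 2 ^ K ≤ 2 ^ b := by
  have h1 := Chebyshev.eventually_primeCounting_le (ε := 1) one_pos
  have ht : Tendsto (fun b : ℕ => ((2 : ℝ) ^ b)) atTop atTop := tendsto_pow_atTop_atTop_of_one_lt (by norm_num)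
  have h2 := ht.eventually h1
  have h3 : Tendsto (fun b : ℕ => (b : ℝ)) atTop atTop := tendsto_natCast_atTop_atTop
  have h4 := h3.eventually_ge_atTop (6 * 2 ^ K)
  rw [← eventually_atTop]
  filter_upwards [h2, h4, eventually_ge_atTop 1] with b hb hb4 hb1
  have e1 : ⌊(2 : ℝ) ^ b⌋₊ = 2 ^ b := by
    have := Nat.floor_natCast (R := ℝ) (2 ^ b)
    push_cast at this
    exact this
  rw [e1, Real.log_pow] at hb
  have hl2 := Real.log_two_gt_d9
  have hl4 : Real.log 4 ≤ 2 := log4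
  have hb0 : (0 : ℝ) < b := by exact_mod_cast hb1
  have h5 : (Real.log 4 + 1) * 2 ^ b / (b * Real.log 2) * 2 ^ K ≤ 2 ^ b := by
    rw [div_mul_eq_mul_div, div_le_iff₀ (by positivity)]
    have h2b : (0 : ℝ) < 2 ^ b := by positivity
    have hK : (0 : ℝ) < 2 ^ K := by positivity
    have h6 : (Real.log 4 + 1) * 2 ^ K ≤ b * Real.log 2 := by nlinarith
    nlinarith
  calc (Nat.primeCounting (2 ^ b) : ℝ) * 2 ^ K ≤ (Real.log 4 + 1) * 2 ^ b / (b * Real.log 2) * 2 ^ K := by gcongr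
    _ ≤ 2 ^ b := h5

/-- the exponents -/
lemma exists_seq : ∃ a : ℕ → ℕ, (∀ j, 2 * a j + 4 ≤ a (j + 1)) ∧ (∀ j, 1 ≤ a j) ∧
    ∀ j, (Nat.primeCounting (2 ^ (a (j + 1) - a j - 3)) : ℝ) * 2 ^ (a j + 1 + j) ≤ 2 ^ (a (j + 1) - a j - 3) := by
  choose b0 hb0 using prime_density
  set a : ℕ → ℕ := fun j => Nat.rec 1 (fun j x => 2 * x + 4 + b0 (x + 1 + j)) j with ha
  have hs : ∀ j, a (j + 1) = 2 * a j + 4 + b0 (a j + 1 + j) := fun j => rfl
  refine ⟨a, fun j => ?_, fun j => ?_, fun j => ?_⟩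
  · rw [hs]; omega
  · induction j with
    | zero => exact le_rfl
    | succ j ih => rw [hs]; omega
  · apply hb0
    rw [hs]; omega

section
variable {a : ℕ → ℕ} (h1 : ∀ j, 2 * a j + 4 ≤ a (j + 1))
include h1

lemma a_strict : StrictMono a := strictMono_nat_of_lt_succ fun j => by have := h1 j; omega

lemma a_summable : Summable fun j => (1 / 2 : ℝ) ^ a j := by
  apply Summable.of_nonneg_of_le (fun j => by positivity) (f := fun j : ℕ => (1 / 2 : ℝ) ^ j) _ summable_geometric_two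
  intro j
  exact pow_le_pow_of_le_one (by norm_num) (by norm_num) ((a_strict h1).id_le j)

/-- the number -/
lemma tail_bounds (j : ℕ) : 0 < (∑' i, (1 / 2 : ℝ) ^ a i) - ∑ i ∈ range (j + 1), (1 / 2 : ℝ) ^ a i ∧
    (∑' i, (1 / 2 : ℝ) ^ a i) - ∑ i ∈ range (j + 1), (1 / 2 : ℝ) ^ a i ≤ 2 * (1 / 2) ^ a (j + 1) := by
  have hs := a_summable h1
  have e := hs.sum_add_tsum_nat_add (j + 1)
  have e2 : (∑' i, (1 / 2 : ℝ) ^ a i) - ∑ i ∈ range (j + 1), (1 / 2 : ℝ) ^ a i = ∑' i, (1 / 2 : ℝ) ^ a (i + (j + 1)) := by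
    linarith
  have hs' : Summable fun i => (1 / 2 : ℝ) ^ a (i + (j + 1)) := (summable_nat_add_iff (j + 1)).2 hs
  rw [e2]
  constructor
  · exact hs'.tsum_pos (fun i => by positivity) 0 (by positivity)
  · have h3 : ∀ i, (1 / 2 : ℝ) ^ a (i + (j + 1)) ≤ (1 / 2) ^ a (j + 1) * (1 / 2) ^ i := by
      intro i
      rw [← pow_add]
      apply pow_le_pow_of_le_one (by norm_num) (by norm_num)
      have : ∀ i, a (j + 1) + i ≤ a (i + (j + 1)) := by
        intro i
        induction i with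
        | zero => simp
        | succ i ih =>
          have := a_strict h1 (show i + (j + 1) < i + 1 + (j + 1) by omega)
          omega
      exact this i
    have hg : Summable fun i : ℕ => (1 / 2 : ℝ) ^ a (j + 1) * (1 / 2) ^ i := summable_geometric_two.mul_left _
    calc ∑' i, (1 / 2 : ℝ) ^ a (i + (j + 1)) ≤ ∑' i : ℕ, (1 / 2 : ℝ) ^ a (j + 1) * (1 / 2) ^ i := hs'.tsum_le_tsum h3 hg
      _ = 2 * (1 / 2) ^ a (j + 1) := by rw [tsum_mul_left, tsum_geometric_two]; ring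

/-- the partial sums are odd multiples -/
lemma partial_sum (j : ℕ) : ∃ A : ℕ, Odd A ∧ ∑ i ∈ range (j + 1), (1 / 2 : ℝ) ^ a i = A / 2 ^ a j := by
  induction j with
  | zero => exact ⟨1, odd_one, by simp⟩
  | succ j ih =>
    obtain ⟨A, hA, e⟩ := ih
    refine ⟨A * 2 ^ (a (j + 1) - a j) + 1, ?_, ?_⟩
    · apply Even.add_one
      apply Even.mul_left
      rw [Nat.even_pow]
      refine ⟨even_two, ?_⟩
      have := h1 j
      omega
    · rw [sum_range_succ, e]
      have h3 : (2 : ℝ) ^ a (j + 1) = 2 ^ (a (j + 1) - a j) * 2 ^ a j := by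
        rw [← pow_add]; congr 1
        have := h1 j
        omega
      rw [one_div_pow, h3]
      push_cast
      field_simp

lemma nn_lower (h2 : ∀ j, 1 ≤ a j) {j p : ℕ} (hp : Odd p) (hpN : p ≤ 2 ^ (a (j + 1) - a j - 3)) :
    1 / 2 ^ (a j + 1) ≤ nn ((p : ℝ) * ∑' i, (1 / 2 : ℝ) ^ a i) := by
  obtain ⟨A, hA, e⟩ := partial_sum h1 j
  obtain ⟨t1, t2⟩ := tail_bounds h1 j
  rw [e] at t1 t2
  set α := ∑' i, (1 / 2 : ℝ) ^ a i with hα
  unfold nn
  set n := round ((p : ℝ) * α) with hn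
  have hpow : (0 : ℝ) < 2 ^ a j := by positivity
  -- the distance of `p A / 2^a` to `n`
  have haj : a j ≠ 0 := by have := h2 j; omega
  have hodd : Odd ((p : ℤ) * A - n * 2 ^ a j) := by
    have h3 : Odd ((p : ℤ) * A) := by exact_mod_cast hp.mul hA
    apply h3.sub_even
    apply Even.mul_left
    rw [Int.even_pow]
    exact ⟨even_two, haj⟩
  have h4 : (1 : ℝ) ≤ |(p : ℝ) * A - n * 2 ^ a j| := by
    have h5 : (p : ℤ) * A - n * 2 ^ a j ≠ 0 := by
      intro h0
      rw [h0] at hodd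
      exact absurd hodd (by decide)
    have h6 := Int.one_le_abs h5
    have h7 : ((1 : ℤ) : ℝ) ≤ ((|(p : ℤ) * A - n * 2 ^ a j| : ℤ) : ℝ) := by exact_mod_cast h6
    push_cast at h7
    exact h7
  have h8 : (p : ℝ) * (α - A / 2 ^ a j) ≤ 1 / 2 ^ (a j + 2) := by
    have hp' : (p : ℝ) ≤ 2 ^ (a (j + 1) - a j - 3) := by exact_mod_cast hpN
    calc (p : ℝ) * (α - A / 2 ^ a j) ≤ 2 ^ (a (j + 1) - a j - 3) * (2 * (1 / 2) ^ a (j + 1)) := by gcongr
      _ = 1 / 2 ^ (a j + 2) := by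
          have h9 : (2 : ℝ) ^ a (j + 1) = 2 ^ (a (j + 1) - a j - 3) * 2 ^ (a j + 3) := by
            rw [← pow_add]; congr 1
            have := h1 j
            omega
          rw [one_div_pow, h9, pow_add, pow_add]
          field_simp
  have h10 : 0 ≤ (p : ℝ) * (α - A / 2 ^ a j) := by positivity
  have h11 : |(p : ℝ) * A - n * 2 ^ a j| / 2 ^ a j = |(p : ℝ) * (A / 2 ^ a j) - n| := by
    rw [← abs_of_pos hpow, ← abs_div, abs_of_pos hpow]
    congr 1
    field_simp
  have h12 : 1 / 2 ^ a j ≤ |(p : ℝ) * (A / 2 ^ a j) - n| := by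
    rw [← h11]
    gcongr
  have h13 : |(p : ℝ) * (A / 2 ^ a j) - n| ≤ |(p : ℝ) * α - n| + (p : ℝ) * (α - A / 2 ^ a j) := by
    have e3 : (p : ℝ) * (A / 2 ^ a j) - n = ((p : ℝ) * α - n) - (p : ℝ) * (α - A / 2 ^ a j) := by ring
    rw [e3]
    refine (abs_sub _ _).trans ?_
    rw [abs_of_nonneg h10]
  have h14 : (1 : ℝ) / 2 ^ a j = 1 / 2 ^ (a j + 1) + 1 / 2 ^ (a j + 1) := by
    rw [pow_succ]; field_simp; norm_num
  have h15 : (1 : ℝ) / 2 ^ (a j + 2) ≤ 1 / 2 ^ (a j + 1) := by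
    apply one_div_le_one_div_of_le (by positivity)
    exact pow_le_pow_right₀ (by norm_num) (by omega)
  linarith

lemma alpha_irr : Irrational (∑' i, (1 / 2 : ℝ) ^ a i) := by
  rintro ⟨x, hx⟩
  set α := ∑' i, (1 / 2 : ℝ) ^ a i with hα
  -- choose `j` with `den < 2 ^ a j`
  set j := x.den with hj
  obtain ⟨A, hA, e⟩ := partial_sum h1 j
  obtain ⟨t1, t2⟩ := tail_bounds h1 j
  rw [e, ← hα] at t1 t2
  have hden : (0 : ℝ) < x.den := by exact_mod_cast x.pos
  have hxe : α * x.den = x.num := by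
    rw [← hx]
    exact_mod_cast Rat.mul_den_eq_num x
  have hpow : (0 : ℝ) < 2 ^ a j := by positivity
  have h3 : (((x.num * 2 ^ a j - A * x.den : ℤ)) : ℝ) = (α - A / 2 ^ a j) * (x.den * 2 ^ a j) := by
    push_cast
    rw [← hxe]
    field_simp
  have h4 : (0 : ℝ) < (((x.num * 2 ^ a j - A * x.den : ℤ)) : ℝ) := by
    rw [h3]; positivity
  have h5 : (1 : ℝ) ≤ (((x.num * 2 ^ a j - A * x.den : ℤ)) : ℝ) := by
    have : 0 < (x.num * 2 ^ a j - A * x.den : ℤ) := by exact_mod_cast h4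
    exact_mod_cast this
  rw [h3] at h5
  have h6 : (α - A / 2 ^ a j) * (x.den * 2 ^ a j) ≤ 1 / 2 := by
    have h7 : (x.den : ℝ) ≤ 2 ^ a j := by
      have : x.den < 2 ^ x.den := Nat.lt_two_pow_self
      have h8 : x.den ≤ a j := (a_strict h1).id_le j
      have h9 : 2 ^ x.den ≤ 2 ^ a j := Nat.pow_le_pow_right (by norm_num) h8
      exact_mod_cast this.le.trans h9
    calc (α - A / 2 ^ a j) * (x.den * 2 ^ a j) ≤ (2 * (1 / 2) ^ a (j + 1)) * (2 ^ a j * 2 ^ a j) := by gcongr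
      _ ≤ (2 * (1 / 2) ^ (2 * a j + 4)) * (2 ^ a j * 2 ^ a j) := by
          have : (1 / 2 : ℝ) ^ a (j + 1) ≤ (1 / 2) ^ (2 * a j + 4) :=
            pow_le_pow_of_le_one (by norm_num) (by norm_num) (h1 j)
          gcongr
      _ = 1 / 8 := by
          rw [one_div_pow, pow_add, two_mul (a j), pow_add]
          field_simp
          norm_num
      _ ≤ 1 / 2 := by norm_num
  linarith

end

/-- the function which is constant on the intervals `(N j, N (j + 1)]` -/
noncomputable def stp (N : ℕ → ℕ) (hN : ∀ n, ∃ j, n ≤ N (j + 1)) (n : ℕ) : ℝ := by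
  classical
  exact 1 / N (Nat.find (hN n) + 1)

lemma stp_eq {N : ℕ → ℕ} (hN : ∀ n, ∃ j, n ≤ N (j + 1)) (hs : StrictMono N) {j n : ℕ} (h1 : N j < n) (h2 : n ≤ N (j + 1)) :
    stp N hN n = 1 / N (j + 1) := by
  classical
  unfold stp
  have : Nat.find (hN n) = j := by
    rw [Nat.find_eq_iff]
    refine ⟨h2, fun i hi h3 => ?_⟩
    have : N (i + 1) ≤ N j := hs.monotone (by omega)
    omega
  rw [this]

lemma stp_nonneg {N : ℕ → ℕ} (hN : ∀ n, ∃ j, n ≤ N (j + 1)) (n : ℕ) : 0 ≤ stp N hN n := by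
  unfold stp; positivity

lemma stp_anti {N : ℕ → ℕ} (hN : ∀ n, ∃ j, n ≤ N (j + 1)) (hs : StrictMono N) : Antitone (stp N hN) := by
  classical
  intro m n hmn
  unfold stp
  have h1 : Nat.find (hN m) ≤ Nat.find (hN n) := Nat.find_min' (hN m) (hmn.trans (Nat.find_spec (hN n)))
  have h2 : N (Nat.find (hN m) + 1) ≤ N (Nat.find (hN n) + 1) := hs.monotone (by omega)
  have h3 : 0 < N (Nat.find (hN m) + 1) := by
    have := hs (show 0 < Nat.find (hN m) + 1 by omega)
    omega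
  apply one_div_le_one_div_of_le
  · exact_mod_cast h3
  · exact_mod_cast h2

lemma stp_div {N : ℕ → ℕ} (hN : ∀ n, ∃ j, n ≤ N (j + 1)) (hs : StrictMono N) (h2N : ∀ j, 2 * N j ≤ N (j + 1)) :
    ¬ Summable (stp N hN) := by
  intro hsum
  have htail := tendsto_sum_nat_add (stp N hN)
  have h1 : ∀ᶠ i : ℕ in atTop, ∑' m, stp N hN (m + i) < 1 / 2 := htail.eventually (gt_mem_nhds (by norm_num))
  obtain ⟨i0, hi0⟩ := eventually_atTop.1 h1
  have h3 : i0 ≤ N i0 + 1 := (hs.id_le i0).trans (Nat.le_succ _)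
  have h4 := hi0 (N i0 + 1) h3
  have hs' : Summable fun m => stp N hN (m + (N i0 + 1)) := (summable_nat_add_iff _).2 hsum
  have h5 := hs'.sum_le_tsum (range (N (i0 + 1) - N i0)) fun m _ => stp_nonneg hN _
  have h6 : ∑ m ∈ range (N (i0 + 1) - N i0), stp N hN (m + (N i0 + 1)) = (N (i0 + 1) - N i0 : ℕ) * (1 / (N (i0 + 1) : ℝ)) := by
    rw [← nsmul_eq_mul, ← card_range (N (i0 + 1) - N i0), ← sum_const]
    rw [card_range]
    apply sum_congr rfl
    intro m hm
    rw [mem_range] at hm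
    exact stp_eq hN hs (by omega) (by omega)
  have hpos : (0 : ℝ) < N (i0 + 1) := by
    have := hs (show 0 < i0 + 1 by omega)
    have : 0 < N (i0 + 1) := by omega
    exact_mod_cast this
  have h7 : (1 : ℝ) / 2 ≤ (N (i0 + 1) - N i0 : ℕ) * (1 / (N (i0 + 1) : ℝ)) := by
    rw [mul_one_div, le_div_iff₀ hpos]
    have h8 : N (i0 + 1) ≤ 2 * (N (i0 + 1) - N i0) := by have := h2N i0; omega
    have h9 : (N (i0 + 1) : ℝ) ≤ 2 * ((N (i0 + 1) - N i0 : ℕ) : ℝ) := by exact_mod_cast h8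
    linarith
  linarith

/-- **Some Liouville fibres.** -/
theorem liou : ∃ α : ℝ, Irrational α ∧ ∃ ψ : ℕ → ℝ, (∀ n, 0 ≤ ψ n) ∧ Antitone ψ ∧ ¬ Summable ψ ∧
    ∀ γ : ℕ → ℝ, ∀ᵐ β : ℝ, ∀ᶠ p : ℕ in atTop, p.Prime → ψ p ≤ nn ((p : ℝ) * α) * nn ((p : ℝ) * β - γ p) := by
  classical
  obtain ⟨a, h1, h2, h3⟩ := exists_seq
  set α := ∑' i, (1 / 2 : ℝ) ^ a i with hα
  set N : ℕ → ℕ := fun j => if j = 0 then 1 else 2 ^ (a j - a (j - 1) - 3) with hNdef
  have hN0 : N 0 = 1 := by simp [hNdef]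
  have hNs : ∀ j, N (j + 1) = 2 ^ (a (j + 1) - a j - 3) := fun j => by simp [hNdef]
  have h2N : ∀ j, 2 * N j ≤ N (j + 1) := by
    intro j
    rcases Nat.eq_zero_or_pos j with h | h
    · subst h
      rw [hN0, hNs, mul_one]
      calc 2 = 2 ^ 1 := by norm_num
        _ ≤ _ := Nat.pow_le_pow_right (by norm_num) (by have := h1 0; have := h2 0; omega)
    · obtain ⟨i, rfl⟩ : ∃ i, j = i + 1 := ⟨j - 1, by omega⟩
      rw [hNs, hNs, ← pow_succ']
      exact Nat.pow_le_pow_right (by norm_num) (by have := h1 (i + 1); have := h1 i; omega)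
  have hNpos : ∀ j, 0 < N j := fun j => by
    simp only [hNdef]; split_ifs <;> positivity
  have hs : StrictMono N := strictMono_nat_of_lt_succ fun j => by have := h2N j; have := hNpos j; omega
  have hN : ∀ n, ∃ j, n ≤ N (j + 1) := fun n => ⟨n, (Nat.le_succ n).trans (hs.id_le (n + 1))⟩
  refine ⟨α, alpha_irr h1, stp N hN, stp_nonneg hN, stp_anti hN hs, stp_div hN hs h2N, fun γ => ?_⟩
  -- the radii
  set u : ℕ → ℝ := fun p => if p.Prime then stp N hN p / nn ((p : ℝ) * α) else 0 with hu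
  have hu0 : ∀ p, 0 ≤ u p := fun p => by
    simp only [hu]; split_ifs
    · exact div_nonneg (stp_nonneg hN p) (nn_nonneg _)
    · exact le_rfl
  have hblock : ∀ j, 2 ≤ N j → ∑ p ∈ Ioc (N j) (N (j + 1)), u p ≤ (1 / 2) ^ j := by
    intro j hj2
    have hNj : (0 : ℝ) < N (j + 1) := by exact_mod_cast hNpos (j + 1)
    calc ∑ p ∈ Ioc (N j) (N (j + 1)), u p ≤ ∑ p ∈ (Ioc (N j) (N (j + 1))).filter Nat.Prime, 2 ^ (a j + 1) / (N (j + 1) : ℝ) := by
          rw [sum_filter]
          apply sum_le_sum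
          intro p hp
          rw [mem_Ioc] at hp
          simp only [hu]
          split_ifs with hpp
          · rw [stp_eq hN hs hp.1 hp.2]
            have hodd : Odd p := hpp.odd_of_ne_two (by omega)
            have h5 : 1 / 2 ^ (a j + 1) ≤ nn ((p : ℝ) * α) := nn_lower h1 h2 hodd (by rw [← hNs]; exact hp.2)
            have h6 : (0 : ℝ) < 1 / 2 ^ (a j + 1) := by positivity
            calc 1 / (N (j + 1) : ℝ) / nn ((p : ℝ) * α) ≤ 1 / (N (j + 1) : ℝ) / (1 / 2 ^ (a j + 1)) := by gcongr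
              _ = _ := by field_simp
          · exact le_rfl
      _ ≤ (Nat.primeCounting (N (j + 1)) : ℝ) * (2 ^ (a j + 1) / (N (j + 1) : ℝ)) := by
          rw [sum_const, nsmul_eq_mul]
          apply mul_le_mul_of_nonneg_right _ (by positivity)
          have : #((Ioc (N j) (N (j + 1))).filter Nat.Prime) ≤ Nat.primeCounting (N (j + 1)) := by
            rw [Nat.primeCounting, Nat.primeCounting', Nat.count_eq_card_filter_range]
            apply card_le_card
            intro p hp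
            rw [mem_filter, mem_Ioc] at hp
            rw [mem_filter, mem_range]
            exact ⟨by omega, hp.2⟩
          exact_mod_cast this
      _ ≤ (1 / 2) ^ j := by
          rw [mul_div_assoc', div_le_iff₀ hNj]
          have h7 := h3 j
          have h8 : ((2 : ℝ) ^ (a (j + 1) - a j - 3)) = (N (j + 1) : ℝ) := by rw [hNs]; push_cast; rfl
          rw [← hNs, h8, pow_add] at h7
          rw [one_div_pow, one_div_mul_eq_div, le_div_iff₀ (by positivity)]
          linarith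
  have husum : Summable u := by
    rw [← summable_nat_add_iff (N 1 + 1)]
    apply summable_of_sum_range_le (c := 2)
    · intro n; exact hu0 _
    · intro K
      have hsum2 : ∀ J, ∑ p ∈ Ioc (N 1) (N (J + 1)), u p ≤ ∑ j ∈ range J, (1 / 2 : ℝ) ^ (j + 1) := by
        intro J
        induction J with
        | zero => simp
        | succ J ih =>
          rw [sum_range_succ, ← sum_Ioc_consecutive u (hs.monotone (show 1 ≤ J + 1 by omega)) (hs.monotone (show J + 1 ≤ J + 1 + 1 by omega))]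
          have hJ2 : 2 ≤ N (J + 1) := by
            have := h2N J; have := hNpos J; omega
          exact add_le_add ih (hblock (J + 1) hJ2)
      have h9 : ∑ i ∈ range K, u (i + (N 1 + 1)) ≤ ∑ p ∈ Ioc (N 1) (N (K + N 1 + 1)), u p := by
        rw [← sum_image (f := u) (g := fun i => i + (N 1 + 1)) (by intro x _ y _ h; simpa using h)]
        apply sum_le_sum_of_subset_of_nonneg
        · intro p hp
          rw [mem_image] at hp
          obtain ⟨i, hi, rfl⟩ := hp
          rw [mem_range] at hi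
          rw [mem_Ioc]
          have := hs.id_le (K + N 1 + 1)
          simp only [id] at this
          omega
        · intro _ _ _; exact hu0 _
      refine h9.trans ((hsum2 (K + N 1)).trans ?_)
      calc ∑ j ∈ range (K + N 1), (1 / 2 : ℝ) ^ (j + 1) ≤ ∑ j ∈ range (K + N 1), (1 / 2 : ℝ) ^ j := by
            apply sum_le_sum
            intro j _
            exact pow_le_pow_of_le_one (by norm_num) (by norm_num) (by omega)
        _ ≤ ∑' j : ℕ, (1 / 2 : ℝ) ^ j := summable_geometric_two.sum_le_tsum _ fun j _ => by positivity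
        _ = 2 := tsum_geometric_two
  -- Borel-Cantelli
  have hint : ∀ t : ℤ, ∀ᵐ β : ℝ, β ∈ Set.Ico (t : ℝ) (t + 1) → ∀ᶠ p : ℕ in atTop, p.Prime → u p < nn ((p : ℝ) * β - γ p) := by
    intro t
    set E : ℕ → Set ℝ := fun p => {β | p.Prime ∧ β ∈ Set.Ico (t : ℝ) (t + 1) ∩ {x : ℝ | nn ((p : ℝ) * x - γ p) ≤ u p}} with hE
    have hEle : ∀ p, volume (E p) ≤ ENNReal.ofReal (8 * u p) := by
      intro p
      by_cases hp : p.Prime
      · exact (measure_mono fun x hx => hx.2).trans (vol_le hp.one_le t (γ p) (u p) (hu0 p))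
      · have h1 : E p = ∅ := by
          ext x; simp only [hE, Set.mem_ofPred_eq, Set.mem_empty_iff_false, iff_false]
          rintro ⟨h, -⟩; exact hp h
        rw [h1, measure_empty]; exact zero_le
    have hsum : ∑' p, volume (E p) ≠ ∞ := by
      apply ne_top_of_le_ne_top _ (ENNReal.tsum_le_tsum hEle)
      exact (husum.mul_left 8).tsum_ofReal_ne_top
    filter_upwards [ae_eventually_notMem hsum] with x hx hxs
    filter_upwards [hx] with p hp hpp
    by_contra hcon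
    push Not at hcon
    exact hp ⟨hpp, hxs, hcon⟩
  have hall : ∀ᵐ β : ℝ, ∀ t : ℤ, β ∈ Set.Ico (t : ℝ) (t + 1) → ∀ᶠ p : ℕ in atTop, p.Prime → u p < nn ((p : ℝ) * β - γ p) :=
    ae_all_iff.2 hint
  filter_upwards [hall] with β hβ
  filter_upwards [hβ ⌊β⌋ ⟨Int.floor_le _, Int.lt_floor_add_one _⟩, eventually_ge_atTop 3] with p hp hp3 hpp
  have h4 := hp hpp
  simp only [hu] at h4
  rw [if_pos hpp] at h4
  have hodd : Odd p := hpp.odd_of_ne_two (by omega)
  obtain ⟨j, hj⟩ := hN p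
  have h5 : 1 / 2 ^ (a j + 1) ≤ nn ((p : ℝ) * α) := nn_lower h1 h2 hodd (by rw [← hNs]; exact hj)
  have h6 : 0 < nn ((p : ℝ) * α) := lt_of_lt_of_le (by positivity) h5
  rw [div_lt_iff₀ h6] at h4
  linarith

end Pool.Agent.V7H17.LP
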